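import Pool.Agent.R777.Slow

/-! Conjugating linear maps by a homeomorphism which is smooth off the origin. -/

set_option linter.unusedVariables false
set_option linter.unusedSectionVars false
set_option linter.unusedSimpArgs false

open Filter Topology Asymptotics Set
open scoped ContDiff

namespace Pool.Agent.R777

section lip

variable {E : Type} [NormedAddCommGroup E] [NormedSpace ℝ E]
variable {F : Type} [NormedAddCommGroup F] [NormedSpace ℝ F]

/-- A function which is differentiable off the origin with bounded derivative and which is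
`O(‖z‖)` is Lipschitz. -/
lemma lipschitz_of_punctured {f : E → F} {C : ℝ} (hd : ∀ z, z ≠ 0 → DifferentiableAt ℝ f z)
    (hC : ∀ z, z ≠ 0 → ‖fderiv ℝ f z‖ ≤ C) (h0 : ∀ z, ‖f z‖ ≤ C * ‖z‖) (x y : E) :
    ‖f x - f y‖ ≤ C * ‖x - y‖ := by
  by_cases hs : (0 : E) ∈ segment ℝ y x
  · obtain ⟨a, b, ha, hb, hab, h⟩ := hs
    have h1 : ‖f x - f y‖ ≤ C * ‖x‖ + C * ‖y‖ :=
      (norm_sub_le _ _).trans (add_le_add (h0 x) (h0 y))
    have h2 : ‖x - y‖ = ‖x‖ + ‖y‖ := by
      have h3 : a • y = - (b • x) := eq_neg_of_add_eq_zero_left h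
      have h4 : a * ‖y‖ = b * ‖x‖ := by
        have := congrArg norm h3
        rwa [norm_neg, norm_smul, norm_smul, Real.norm_of_nonneg ha, Real.norm_of_nonneg hb] at this
      -- x = a • (x - y), y = - b • (x - y)
      have h5 : x = a • (x - y) := by
        rw [smul_sub, h3, sub_neg_eq_add, ← add_smul, hab, one_smul]
      have h6 : y = -(b • (x - y)) := by
        rw [smul_sub, neg_sub, ← sub_eq_zero]
        have : b • x = - (a • y) := by rw [h3, neg_neg]
        rw [this, sub_neg_eq_add, ← add_smul, add_comm b a, hab, one_smul, sub_self]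
      have h7 : ‖x‖ = a * ‖x - y‖ := by
        conv_lhs => rw [h5]
        rw [norm_smul, Real.norm_of_nonneg ha]
      have h8 : ‖y‖ = b * ‖x - y‖ := by
        conv_lhs => rw [h6]
        rw [norm_neg, norm_smul, Real.norm_of_nonneg hb]
      rw [h7, h8, ← add_mul, hab, one_mul]
    rw [h2, mul_add]
    exact h1
  · have hne : ∀ z ∈ segment ℝ y x, z ≠ 0 := fun z hz h => hs (h ▸ hz)
    exact (convex_segment y x).norm_image_sub_le_of_norm_hasFDerivWithin_le
      (fun z hz => (hd z (hne z hz)).hasFDerivAt.hasFDerivWithinAt)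
      (fun z hz => hC z (hne z hz)) (left_mem_segment ℝ y x) (right_mem_segment ℝ y x)

end lip

variable {E : Type} [NormedAddCommGroup E] [InnerProductSpace ℝ E] [FiniteDimensional ℝ E]

/-- a smooth cutoff function: `1` on the ball of radius `1/4`, `0` off the ball of radius `1/2` -/
noncomputable def bump : ContDiffBump (0 : E) where
  rIn := 1 / 4
  rOut := 1 / 2
  rIn_pos := by norm_num
  rIn_lt_rOut := by norm_num

/-- The vector field `χ(z) cos(log(2 - log ‖z‖²)) ℓ(z)^j P z`. -/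
noncomputable def V0 (P : E →L[ℝ] E) (ℓ : E →L[ℝ] ℝ) (j : ℕ) (z : E) : E :=
  ((bump : ContDiffBump (0 : E)) z * (lam z * (ℓ z) ^ j)) • P z

lemma aa_pos {z : E} (hz : ‖z‖ < 1) : 0 < aa z := by
  have h : Real.log (‖z‖ ^ 2) ≤ 0 :=
    Real.log_nonpos (by positivity) (pow_le_one₀ (norm_nonneg _) hz.le)
  simp only [aa]
  linarith

lemma lam_contDiffAt {z : E} (hz0 : z ≠ 0) (hz : ‖z‖ < 1) : ContDiffAt ℝ ∞ (lam : E → ℝ) z := by
  have h1 : ContDiffAt ℝ ∞ (fun z : E => Real.log (‖z‖ ^ 2)) z :=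
    (contDiff_norm_sq ℝ).contDiffAt.log (pow_ne_zero 2 (norm_ne_zero_iff.2 hz0))
  have h2 : ContDiffAt ℝ ∞ (aa : E → ℝ) z := contDiffAt_const.sub h1
  exact (h2.log (aa_pos hz).ne').cos

lemma V0_contDiffAt (P : E →L[ℝ] E) (ℓ : E →L[ℝ] ℝ) (j : ℕ) {z : E} (hz0 : z ≠ 0) :
    ContDiffAt ℝ ∞ (V0 P ℓ j) z := by
  by_cases hz : ‖z‖ < 1
  · exact (bump.contDiffAt.mul ((lam_contDiffAt hz0 hz).mul (ℓ.contDiff.contDiffAt.pow j))).smul
      P.contDiff.contDiffAt
  · have h1 : V0 P ℓ j =ᶠ[𝓝 z] fun _ => 0 := by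
      have h2 : {z : E | 1 / 2 < ‖z‖} ∈ 𝓝 z := by
        refine (isOpen_lt continuous_const continuous_norm).mem_nhds ?_
        simp only [mem_ofPred_eq]
        linarith [not_lt.1 hz]
      filter_upwards [h2] with y hy
      have h3 : (bump : ContDiffBump (0 : E)) y = 0 := by
        apply bump.zero_of_le_dist
        rw [dist_zero_right]
        exact le_of_lt hy
      simp [V0, h3]
    exact contDiffAt_const.congr_of_eventuallyEq h1

lemma V0_zero (P : E →L[ℝ] E) (ℓ : E →L[ℝ] ℝ) (j : ℕ) : V0 P ℓ j 0 = 0 := by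
  simp [V0]

lemma bump_eventually_one : ∀ᶠ z in 𝓝 (0 : E), (bump : ContDiffBump (0 : E)) z = 1 := by
  have : Metric.closedBall (0 : E) (1 / 4) ∈ 𝓝 (0 : E) := Metric.closedBall_mem_nhds _ (by norm_num)
  filter_upwards [this] with z hz
  exact bump.one_of_mem_closedBall hz

lemma cls_core (P : E →L[ℝ] E) (ℓ : E →L[ℝ] ℝ) (j k : ℕ) :
    Cls false k ((j + 1 : ℕ) : ℤ) (fun z : E => (ℓ z) ^ j • P z) := by
  have := Cls.smul (Cls.pow (Cls.clm k ℓ) j) (Cls.clm k P)
  simpa using this

lemma cls_V0 (P : E →L[ℝ] E) (ℓ : E →L[ℝ] ℝ) (j k : ℕ) :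
    Cls false k ((j + 1 : ℕ) : ℤ) (V0 P ℓ j) := by
  have h := Cls.smul (cls_lam (E := E) k) (cls_core P ℓ j k)
  simp only [Bool.or_false, zero_add] at h
  refine h.congr ?_
  filter_upwards [nhdsWithin_le_nhds bump_eventually_one] with z hz
  simp only [V0, hz, one_mul, smul_smul]

/-- `V0` is Lipschitz -/
lemma V0_lipschitz (P : E →L[ℝ] E) (ℓ : E →L[ℝ] ℝ) (j : ℕ) :
    ∃ C : ℝ, 0 < C ∧ ∀ x y, ‖V0 P ℓ j x - V0 P ℓ j y‖ ≤ C * ‖x - y‖ := by
  -- the derivative is bounded near the origin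
  have h1 : Cls false 0 0 (fderiv ℝ (V0 P ℓ j)) :=
    ((cls_V0 P ℓ j 1).2.2).weaken (by push_cast; omega)
  have h2 : fderiv ℝ (V0 P ℓ j) =O[𝓝[≠] (0 : E)] (fun _ => (1 : ℝ)) := by
    simpa [Asy] using h1.2
  obtain ⟨C1, hC1⟩ := h2.bound
  rw [eventually_nhdsWithin_iff, Metric.eventually_nhds_iff] at hC1
  obtain ⟨r, hr, hC1⟩ := hC1
  -- and on the compact annulus
  have hcomp : IsCompact (Metric.closedBall (0 : E) 1 \ Metric.ball (0 : E) r) :=
    (isCompact_closedBall 0 1).diff Metric.isOpen_ball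
  have hcont : ContinuousOn (fderiv ℝ (V0 P ℓ j))
      (Metric.closedBall (0 : E) 1 \ Metric.ball (0 : E) r) := by
    intro z hz
    have hz0 : z ≠ 0 := by
      rintro rfl
      exact hz.2 (Metric.mem_ball_self hr)
    have h3 := (V0_contDiffAt P ℓ j hz0).fderiv_right (m := 0) (by simp)
    exact h3.continuousAt.continuousWithinAt
  obtain ⟨C2, hC2⟩ := hcomp.exists_bound_of_continuousOn hcont
  set C3 := ‖ℓ‖ ^ j * ‖P‖
  set C := |C1| + |C2| + C3 + 1
  have hCpos : 0 < C := by positivity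
  have hC3 : 0 ≤ C3 := by positivity
  refine ⟨C, hCpos, fun x y => ?_⟩
  refine lipschitz_of_punctured (C := C)
    (fun z hz => (V0_contDiffAt P ℓ j hz).differentiableAt (by simp)) (fun z hz => ?_) (fun z => ?_)
    x y
  · by_cases hzr : ‖z‖ < r
    · have := hC1 (by simpa using hzr) hz
      simp only [norm_one, mul_one] at this
      have h4 := le_abs_self C1
      have h5 := abs_nonneg C2
      linarith
    · by_cases hz1 : ‖z‖ ≤ 1
      · have := hC2 z ⟨by simpa using hz1, by simpa using hzr⟩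
        have h4 := le_abs_self C2
        have h5 := abs_nonneg C1
        linarith
      · have h6 : V0 P ℓ j =ᶠ[𝓝 z] fun _ => 0 := by
          have h2 : {z : E | 1 / 2 < ‖z‖} ∈ 𝓝 z := by
            refine (isOpen_lt continuous_const continuous_norm).mem_nhds ?_
            simp only [mem_ofPred_eq]
            linarith [not_le.1 hz1]
          filter_upwards [h2] with y hy
          have h3 : (bump : ContDiffBump (0 : E)) y = 0 := by
            apply bump.zero_of_le_dist
            rw [dist_zero_right]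
            exact le_of_lt hy
          simp [V0, h3]
        rw [h6.fderiv_eq]
        simp [hCpos.le]
  · by_cases hz1 : ‖z‖ ≤ 1
    · have hb : |(bump : ContDiffBump (0 : E)) z| ≤ 1 := by
        rw [abs_of_nonneg bump.nonneg]
        exact bump.le_one
      have hl : |lam z| ≤ 1 := Real.abs_cos_le_one _
      have hp : |ℓ z| ^ j ≤ ‖ℓ‖ ^ j := by
        refine pow_le_pow_left₀ (abs_nonneg _) ?_ j
        have := ℓ.le_opNorm z
        rw [Real.norm_eq_abs] at this
        refine this.trans ?_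
        nlinarith [norm_nonneg ℓ]
      have hP := P.le_opNorm z
      simp only [V0, norm_smul, norm_mul, norm_pow, Real.norm_eq_abs]
      have h7 : |(bump : ContDiffBump (0 : E)) z| * (|lam z| * |ℓ z| ^ j) ≤ ‖ℓ‖ ^ j := by
        have h8 : |lam z| * |ℓ z| ^ j ≤ 1 * ‖ℓ‖ ^ j :=
          mul_le_mul hl hp (by positivity) zero_le_one
        have h9 : 0 ≤ |lam z| * |ℓ z| ^ j := by positivity
        calc |(bump : ContDiffBump (0 : E)) z| * (|lam z| * |ℓ z| ^ j)
            ≤ 1 * (|lam z| * |ℓ z| ^ j) := mul_le_mul_of_nonneg_right hb h9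
          _ ≤ ‖ℓ‖ ^ j := by rw [one_mul]; linarith
      calc |(bump : ContDiffBump (0 : E)) z| * (|lam z| * |ℓ z| ^ j) * ‖P z‖
          ≤ ‖ℓ‖ ^ j * (‖P‖ * ‖z‖) := mul_le_mul h7 hP (norm_nonneg _) (by positivity)
        _ = C3 * ‖z‖ := by simp only [C3]; ring
        _ ≤ C * ‖z‖ := by
          refine mul_le_mul_of_nonneg_right ?_ (norm_nonneg _)
          have h4 := abs_nonneg C1
          have h5 := abs_nonneg C2
          simp only [C]
          linarith
    · have h3 : (bump : ContDiffBump (0 : E)) z = 0 := by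
        apply bump.zero_of_le_dist
        rw [dist_zero_right]
        simp only [bump]
        linarith [not_le.1 hz1]
      simp only [V0, h3, zero_mul, zero_smul, norm_zero]
      exact mul_nonneg hCpos.le (norm_nonneg _)

/-- A small multiple of `V0`, with Lipschitz constant at most `1/2`. -/
lemma exists_eps (P : E →L[ℝ] E) (ℓ : E →L[ℝ] ℝ) (j : ℕ) :
    ∃ ε : ℝ, 0 < ε ∧ ∀ x y, ‖ε • V0 P ℓ j x - ε • V0 P ℓ j y‖ ≤ 1 / 2 * ‖x - y‖ := by
  obtain ⟨C, hC, h⟩ := V0_lipschitz P ℓ j
  refine ⟨1 / (2 * C), by positivity, fun x y => ?_⟩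
  rw [← smul_sub, norm_smul, Real.norm_of_nonneg (by positivity)]
  calc 1 / (2 * C) * ‖V0 P ℓ j x - V0 P ℓ j y‖ ≤ 1 / (2 * C) * (C * ‖x - y‖) :=
        mul_le_mul_of_nonneg_left (h x y) (by positivity)
    _ = 1 / 2 * ‖x - y‖ := by field_simp

section abstract

variable [Nontrivial E] {k : ℕ} {V : E → E}
  (hlip : ∀ x y, ‖V x - V y‖ ≤ 1 / 2 * ‖x - y‖)

include hlip in
lemma approx : ApproximatesLinearOn (fun z => z + V z)
    ((ContinuousLinearEquiv.refl ℝ E : E ≃L[ℝ] E) : E →L[ℝ] E) univ (1 / 2 : NNReal) := by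
  intro x _ y _
  have h := hlip x y
  simp only [ContinuousLinearEquiv.coe_refl, ContinuousLinearMap.coe_id', id_eq]
  have e : x + V x - (y + V y) - (x - y) = V x - V y := by abel
  rw [e]
  refine h.trans (le_of_eq ?_)
  norm_num

/-- The homeomorphism `z ↦ z + V z`. -/
noncomputable def Phi : E ≃ₜ E :=
  ApproximatesLinearOn.toHomeomorph (fun z => z + V z) (f' := ContinuousLinearEquiv.refl ℝ E)
    (approx hlip) (by
      right
      have : ‖((ContinuousLinearEquiv.refl ℝ E).symm : E →L[ℝ] E)‖₊ = 1 := by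
        rw [← NNReal.coe_inj]
        simp
      rw [this, inv_one]
      norm_num)

lemma Phi_apply (z : E) : Phi hlip z = z + V z := rfl

lemma Phi_symm_add (z : E) : (Phi hlip).symm z + V ((Phi hlip).symm z) = z :=
  (Phi hlip).apply_symm_apply z

lemma Phi_lower (x y : E) : ‖x - y‖ ≤ 2 * ‖Phi hlip x - Phi hlip y‖ := by
  have h := hlip x y
  have e : x - y = (Phi hlip x - Phi hlip y) - (V x - V y) := by
    rw [Phi_apply, Phi_apply]; abel
  have h2 : ‖x - y‖ ≤ ‖Phi hlip x - Phi hlip y‖ + ‖V x - V y‖ := by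
    conv_lhs => rw [e]
    exact norm_sub_le _ _
  linarith

lemma Phi_upper (x y : E) : ‖Phi hlip x - Phi hlip y‖ ≤ 2 * ‖x - y‖ := by
  have h := hlip x y
  have e : Phi hlip x - Phi hlip y = (x - y) + (V x - V y) := by
    rw [Phi_apply, Phi_apply]; abel
  rw [e]
  refine (norm_add_le _ _).trans ?_
  have := norm_nonneg (x - y)
  linarith

lemma psi_lip (x y : E) : ‖(Phi hlip).symm x - (Phi hlip).symm y‖ ≤ 2 * ‖x - y‖ := by
  simpa using Phi_lower hlip ((Phi hlip).symm x) ((Phi hlip).symm y)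

variable (h0 : V 0 = 0)

include h0

lemma Phi_zero : Phi hlip 0 = 0 := by rw [Phi_apply, h0, add_zero]

lemma psi_zero : (Phi hlip).symm 0 = 0 := by
  rw [Homeomorph.symm_apply_eq, Phi_zero hlip h0]

lemma psi_norm_le (x : E) : ‖(Phi hlip).symm x‖ ≤ 2 * ‖x‖ := by
  simpa [psi_zero hlip h0] using psi_lip hlip x 0

lemma psi_norm_ge (x : E) : ‖x‖ ≤ 2 * ‖(Phi hlip).symm x‖ := by
  have := Phi_upper hlip ((Phi hlip).symm x) 0
  simpa [Phi_zero hlip h0] using this

lemma psi_ne_zero {x : E} (hx : x ≠ 0) : (Phi hlip).symm x ≠ 0 := by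
  intro h
  have := psi_norm_ge hlip h0 x
  rw [h, norm_zero, mul_zero] at this
  exact hx (norm_le_zero_iff.1 this)

lemma Phi_ne_zero {x : E} (hx : x ≠ 0) : Phi hlip x ≠ 0 := by
  intro h
  have := Phi_lower hlip x 0
  rw [h, Phi_zero hlip h0, sub_zero, sub_zero, norm_zero, mul_zero] at this
  exact hx (norm_le_zero_iff.1 this)

variable (hsm : ∀ z, z ≠ 0 → ContDiffAt ℝ ∞ V z)

include hsm

omit h0 in
include hlip in
lemma fderiv_V_norm {z : E} (hz : z ≠ 0) : ‖fderiv ℝ V z‖ ≤ 1 / 2 := by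
  have h : LipschitzWith (1 / 2 : NNReal) V := by
    refine LipschitzWith.of_dist_le_mul fun x y => ?_
    rw [dist_eq_norm, dist_eq_norm]
    refine (hlip x y).trans (le_of_eq ?_)
    norm_num
  have := norm_fderiv_le_of_lipschitz ℝ h (x₀ := z)
  simpa using this

omit h0 in
include hlip in
lemma isUnit_one_add {z : E} (hz : z ≠ 0) :
    IsUnit ((1 : E →L[ℝ] E) + fderiv ℝ V z) := by
  have h := fderiv_V_norm hlip hsm hz
  have h1 : ‖-fderiv ℝ V z‖ < 1 := by
    rw [norm_neg]
    linarith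
  have := isUnit_one_sub_of_norm_lt_one h1
  rwa [sub_neg_eq_add] at this

lemma psi_hasFDerivAt {z : E} (hz : z ≠ 0) :
    HasFDerivAt (Phi hlip).symm
      (Ring.inverse ((1 : E →L[ℝ] E) + fderiv ℝ V ((Phi hlip).symm z))) z := by
  have hy := psi_ne_zero hlip h0 hz
  obtain ⟨u, hu⟩ := isUnit_one_add hlip hsm hy
  have h1 : HasFDerivAt (Phi hlip)
      ((ContinuousLinearEquiv.ofUnit u : E ≃L[ℝ] E) : E →L[ℝ] E) ((Phi hlip).symm z) := by
    have h2 : HasFDerivAt (fun z => z + V z)
        ((1 : E →L[ℝ] E) + fderiv ℝ V ((Phi hlip).symm z)) ((Phi hlip).symm z) :=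
      (hasFDerivAt_id _).add ((hsm _ hy).differentiableAt (by simp)).hasFDerivAt
    rw [← hu] at h2
    exact h2
  have h3 := HasFDerivAt.of_local_left_inverse (Phi hlip).symm.continuous.continuousAt h1
    (Eventually.of_forall fun y => (Phi hlip).apply_symm_apply y)
  refine h3.congr_fderiv ?_
  rw [← hu, Ring.inverse_unit]
  rfl

lemma psi_contDiffAt {z : E} (hz : z ≠ 0) : ContDiffAt ℝ ∞ (Phi hlip).symm z := by
  have hy := psi_ne_zero hlip h0 hz
  obtain ⟨u, hu⟩ := isUnit_one_add hlip hsm hy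
  have h2 : HasFDerivAt (fun z => z + V z)
      ((1 : E →L[ℝ] E) + fderiv ℝ V ((Phi hlip).symm z)) ((Phi hlip).symm z) :=
    (hasFDerivAt_id _).add ((hsm _ hy).differentiableAt (by simp)).hasFDerivAt
  rw [← hu] at h2
  have h4 : ContDiffAt ℝ ∞ (fun z => z + V z) ((Phi hlip).symm z) :=
    contDiffAt_id.add (hsm _ hy)
  exact OpenPartialHomeomorph.contDiffAt_symm (Phi hlip).toOpenPartialHomeomorph
    (f₀' := ContinuousLinearEquiv.ofUnit u) (a := z) (by simp) h2 h4

lemma psi_tendsto : Tendsto (Phi hlip).symm (𝓝[≠] (0 : E)) (𝓝[≠] (0 : E)) := by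
  refine tendsto_nhdsWithin_iff.2 ⟨?_, ?_⟩
  · have := (Phi hlip).symm.continuous.tendsto 0
    rw [psi_zero hlip h0] at this
    exact this.mono_left nhdsWithin_le_nhds
  · filter_upwards [self_mem_nhdsWithin] with z hz
    exact psi_ne_zero hlip h0 hz

lemma psi_isBigO : (fun z : E => ‖z‖) =O[𝓝[≠] (0 : E)] (Phi hlip).symm := by
  refine IsBigO.of_bound 2 (Eventually.of_forall fun z => ?_)
  rw [norm_norm]
  exact psi_norm_ge hlip h0 z

variable (hcls : ∀ k, Cls false k 1 V)
include hcls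

lemma cls_psi (k : ℕ) : Cls false k 1 (Phi hlip).symm := by
  have hO : Asy false (𝓝[≠] (0 : E)) (Phi hlip).symm (fun z => ‖z‖ ^ (1 : ℤ)) := by
    simp only [Asy, Bool.false_eq_true, if_false, zpow_one]
    refine IsBigO.of_bound 2 (Eventually.of_forall fun z => ?_)
    rw [norm_norm]
    exact psi_norm_le hlip h0 z
  induction k with
  | zero =>
    exact ⟨Eventually.of_forall fun z => (Phi hlip).symm.continuous.continuousAt, hO⟩
  | succ k ih =>
    refine ⟨?_, hO, ?_⟩
    · filter_upwards [self_mem_nhdsWithin] with z hz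
      exact (psi_hasFDerivAt hlip h0 hsm hz).differentiableAt
    · have h1 : Cls false k 0 (fderiv ℝ V) := by simpa using (hcls (k + 1)).2.2
      have h2 := h1.comp ih (psi_tendsto hlip h0 hsm) (psi_isBigO hlip h0 hsm)
      have h3 := (Cls.const (E := E) k (1 : E →L[ℝ] E)).add h2
      have hd : ∀ᶠ z in 𝓝[≠] (0 : E), HasFDerivAt (Phi hlip).symm
          (Ring.inverse ((1 : E →L[ℝ] E) + fderiv ℝ V ((Phi hlip).symm z))) z := by
        filter_upwards [self_mem_nhdsWithin] with z hz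
        exact psi_hasFDerivAt hlip h0 hsm hz
      have h4 := h3.ringInverse (by
        filter_upwards [self_mem_nhdsWithin] with z hz
        exact isUnit_one_add hlip hsm (psi_ne_zero hlip h0 hz)) (by
        refine IsBigO.of_bound 2 ?_
        filter_upwards [hd] with z hz
        rw [norm_one, mul_one]
        have hl : LipschitzWith (2 : NNReal) (Phi hlip).symm := by
          refine LipschitzWith.of_dist_le_mul fun x y => ?_
          rw [dist_eq_norm, dist_eq_norm]
          exact psi_lip hlip x y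
        have := norm_fderiv_le_of_lipschitz ℝ hl (x₀ := z)
        rw [hz.fderiv] at this
        simpa using this)
      rw [show (1 : ℤ) - 1 = 0 by ring]
      refine h4.congr ?_
      filter_upwards [hd] with z hz
      exact hz.fderiv.symm

/-- The conjugate of a linear map is `C^k`. -/
lemma conj_contDiff (T : E ≃L[ℝ] E) {k : ℕ}
    (hT : Cls true (k + 1) ((k + 1 : ℕ) : ℤ) (fun z => V (T z) - T (V z))) :
    ContDiff ℝ ((k + 1 : ℕ) : WithTop ℕ∞) (fun z => Phi hlip (T ((Phi hlip).symm z))) ∧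
    HasFDerivAt (fun z => Phi hlip (T ((Phi hlip).symm z))) (T : E →L[ℝ] E) 0 := by
  set D : E → E := fun z => V (T z) - T (V z)
  have hA : ∀ z, Phi hlip (T ((Phi hlip).symm z)) = T z + D ((Phi hlip).symm z) := by
    intro z
    have h1 : (T : E ≃L[ℝ] E) z =
        T ((Phi hlip).symm z) + T (V ((Phi hlip).symm z)) := by
      rw [← map_add, Phi_symm_add]
    rw [h1, Phi_apply]
    simp only [D]
    abel
  have hD : Cls true (k + 1) ((k + 1 : ℕ) : ℤ) (fun z => D ((Phi hlip).symm z)) :=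
    Cls.comp hT (cls_psi hlip h0 hsm hcls (k + 1)) (psi_tendsto hlip h0 hsm)
      (psi_isBigO hlip h0 hsm)
  have hD0 : (fun z => D ((Phi hlip).symm z)) 0 = 0 := by
    simp [D, psi_zero hlip h0, h0]
  have hd1 := hD.contDiffAt hD0
  have hd2 := hD.hasFDerivAt hD0
  refine ⟨?_, ?_⟩
  · rw [contDiff_iff_contDiffAt]
    intro z
    by_cases hz : z = 0
    · rw [hz]
      have h1 : ContDiffAt ℝ ((k + 1 : ℕ) : WithTop ℕ∞) (fun z => T z + D ((Phi hlip).symm z)) 0 :=
        T.contDiff.contDiffAt.add hd1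
      exact h1.congr_of_eventuallyEq (Eventually.of_forall hA)
    · have h1 := (psi_contDiffAt hlip h0 hsm hz).of_le
        (show ((k + 1 : ℕ) : WithTop ℕ∞) ≤ ∞ by exact_mod_cast le_top)
      have h2 : ContDiffAt ℝ ((k + 1 : ℕ) : WithTop ℕ∞) (fun z => T ((Phi hlip).symm z)) z :=
        T.contDiff.contDiffAt.comp z h1
      have h3 : T ((Phi hlip).symm z) ≠ 0 := by
        simpa using psi_ne_zero hlip h0 hz
      have h4 : ContDiffAt ℝ ((k + 1 : ℕ) : WithTop ℕ∞) (fun z => z + V z)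
          (T ((Phi hlip).symm z)) :=
        contDiffAt_id.add ((hsm _ h3).of_le
          (show ((k + 1 : ℕ) : WithTop ℕ∞) ≤ ∞ by exact_mod_cast le_top))
      exact ContDiffAt.comp z h4 h2
  · have h1 : HasFDerivAt (fun z => T z + D ((Phi hlip).symm z))
        ((T : E →L[ℝ] E) + 0) 0 := T.hasFDerivAt.add hd2
    rw [add_zero] at h1
    exact h1.congr_of_eventuallyEq (Eventually.of_forall hA)

end abstract

end Pool.Agent.R777
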