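import Pool.Agent.R777.Nonlin

/-! The standard action of `SL(n,ℝ)` on `ℝ^(n+d)` and its conjugates. -/

set_option linter.unusedVariables false
set_option linter.unusedSectionVars false
set_option linter.unusedSimpArgs false

open Filter Topology Asymptotics Set Matrix
open scoped ContDiff

namespace Pool.Agent.R777

section blk

variable {n d : ℕ}

/-- The matrix of size `n + d` with upper left block `g` and lower right block `D`. -/
noncomputable def blk (g : Matrix (Fin n) (Fin n) ℝ) (D : Matrix (Fin d) (Fin d) ℝ) :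
    Matrix (Fin (n + d)) (Fin (n + d)) ℝ :=
  Matrix.reindexAlgEquiv ℝ ℝ finSumFinEquiv (Matrix.fromBlocks g 0 0 D)

lemma blk_mul (g h : Matrix (Fin n) (Fin n) ℝ) (D D' : Matrix (Fin d) (Fin d) ℝ) :
    blk (g * h) (D * D') = blk g D * blk h D' := by
  rw [blk, blk, blk, ← map_mul, Matrix.fromBlocks_multiply]
  simp

lemma blk_one : blk (1 : Matrix (Fin n) (Fin n) ℝ) (1 : Matrix (Fin d) (Fin d) ℝ) = 1 := by
  rw [blk, Matrix.fromBlocks_one, map_one]

lemma blk_mulVec_inl (g : Matrix (Fin n) (Fin n) ℝ) (D : Matrix (Fin d) (Fin d) ℝ)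
    (v : Fin (n + d) → ℝ) (i : Fin n) :
    (blk g D *ᵥ v) (Fin.castAdd d i) = (g *ᵥ fun k => v (Fin.castAdd d k)) i := by
  rw [blk, Matrix.coe_reindexAlgEquiv, Matrix.reindex_apply, Matrix.submatrix_mulVec_equiv,
    Matrix.fromBlocks_mulVec]
  simp only [Function.comp, finSumFinEquiv_symm_apply_castAdd, Sum.elim_inl]
  simp only [Pi.add_apply, Matrix.zero_mulVec, Pi.zero_apply, add_zero]
  rfl

lemma blk_mulVec_inr (g : Matrix (Fin n) (Fin n) ℝ) (D : Matrix (Fin d) (Fin d) ℝ)
    (v : Fin (n + d) → ℝ) (i : Fin d) :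
    (blk g D *ᵥ v) (Fin.natAdd n i) = (D *ᵥ fun k => v (Fin.natAdd n k)) i := by
  rw [blk, Matrix.coe_reindexAlgEquiv, Matrix.reindex_apply, Matrix.submatrix_mulVec_equiv,
    Matrix.fromBlocks_mulVec]
  simp only [Function.comp, finSumFinEquiv_symm_apply_natAdd, Sum.elim_inr]
  simp only [Pi.add_apply, Matrix.zero_mulVec, Pi.zero_apply, zero_add]
  rfl

/-- The continuous linear map given by a block matrix. -/
noncomputable def bl (g : Matrix (Fin n) (Fin n) ℝ) (D : Matrix (Fin d) (Fin d) ℝ) :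
    EuclideanSpace ℝ (Fin (n + d)) →L[ℝ] EuclideanSpace ℝ (Fin (n + d)) :=
  Matrix.toEuclideanCLM (𝕜 := ℝ) (blk g D)

lemma bl_apply_inl (g : Matrix (Fin n) (Fin n) ℝ) (D : Matrix (Fin d) (Fin d) ℝ)
    (z : EuclideanSpace ℝ (Fin (n + d))) (i : Fin n) :
    bl g D z (Fin.castAdd d i) = (g *ᵥ fun k => z (Fin.castAdd d k)) i :=
  blk_mulVec_inl g D z.ofLp i

lemma bl_apply_inr (g : Matrix (Fin n) (Fin n) ℝ) (D : Matrix (Fin d) (Fin d) ℝ)
    (z : EuclideanSpace ℝ (Fin (n + d))) (i : Fin d) :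
    bl g D z (Fin.natAdd n i) = (D *ᵥ fun k => z (Fin.natAdd n k)) i :=
  blk_mulVec_inr g D z.ofLp i

lemma bl_mul (g h : Matrix (Fin n) (Fin n) ℝ) (D D' : Matrix (Fin d) (Fin d) ℝ)
    (z : EuclideanSpace ℝ (Fin (n + d))) :
    bl (g * h) (D * D') z = bl g D (bl h D' z) := by
  rw [bl, blk_mul, map_mul]
  rfl

lemma bl_one (z : EuclideanSpace ℝ (Fin (n + d))) : bl (n := n) (d := d) 1 1 z = z := by
  rw [bl, blk_one, map_one]
  rfl

/-- extensionality in the two groups of coordinates -/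
lemma ext_blk {z w : EuclideanSpace ℝ (Fin (n + d))}
    (h1 : ∀ i, z (Fin.castAdd d i) = w (Fin.castAdd d i))
    (h2 : ∀ i, z (Fin.natAdd n i) = w (Fin.natAdd n i)) : z = w := by
  ext i
  refine Fin.addCases (fun i => h1 i) (fun i => h2 i) i

/-- The standard action of `g` on `ℝ^n × ℝ^d`. -/
noncomputable def TT (g : Matrix.SpecialLinearGroup (Fin n) ℝ) :
    EuclideanSpace ℝ (Fin (n + d)) →L[ℝ] EuclideanSpace ℝ (Fin (n + d)) :=
  bl g.1 1

lemma TT_mul (g h : Matrix.SpecialLinearGroup (Fin n) ℝ) (z : EuclideanSpace ℝ (Fin (n + d))) :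
    TT (g * h) z = TT g (TT h z) := by
  rw [TT, TT, TT, ← bl_mul, one_mul, Matrix.SpecialLinearGroup.coe_mul]

lemma TT_one (z : EuclideanSpace ℝ (Fin (n + d))) :
    TT (1 : Matrix.SpecialLinearGroup (Fin n) ℝ) z = z := by
  rw [TT, Matrix.SpecialLinearGroup.coe_one]
  exact bl_one z

/-- `TT g` as a linear equivalence. -/
noncomputable def Teq (g : Matrix.SpecialLinearGroup (Fin n) ℝ) :
    EuclideanSpace ℝ (Fin (n + d)) ≃L[ℝ] EuclideanSpace ℝ (Fin (n + d)) :=
  ContinuousLinearEquiv.equivOfInverse (TT g) (TT g⁻¹)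
    (fun z => by rw [← TT_mul, inv_mul_cancel, TT_one])
    (fun z => by rw [← TT_mul, mul_inv_cancel, TT_one])

lemma Teq_apply (g : Matrix.SpecialLinearGroup (Fin n) ℝ) (z : EuclideanSpace ℝ (Fin (n + d))) :
    Teq g z = TT g z := rfl

lemma Teq_coe (g : Matrix.SpecialLinearGroup (Fin n) ℝ) :
    ((Teq g : EuclideanSpace ℝ (Fin (n + d)) ≃L[ℝ] EuclideanSpace ℝ (Fin (n + d))) :
      EuclideanSpace ℝ (Fin (n + d)) →L[ℝ] EuclideanSpace ℝ (Fin (n + d))) = TT g := rfl

/-- The projection to the first `n` coordinates. -/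
noncomputable def PP : EuclideanSpace ℝ (Fin (n + d)) →L[ℝ] EuclideanSpace ℝ (Fin (n + d)) :=
  bl 1 0

lemma PP_TT (g : Matrix.SpecialLinearGroup (Fin n) ℝ) (z : EuclideanSpace ℝ (Fin (n + d))) :
    PP (TT g z) = TT g (PP z) := by
  rw [PP, TT, ← bl_mul, ← bl_mul, one_mul, mul_one, one_mul, mul_one]

/-- The first of the last `d` coordinates (zero if `d = 0`). -/
noncomputable def ll (n d : ℕ) : EuclideanSpace ℝ (Fin (n + d)) →L[ℝ] ℝ :=
  if h : 0 < d then EuclideanSpace.proj (Fin.natAdd n ⟨0, h⟩) else 0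

lemma ll_TT (g : Matrix.SpecialLinearGroup (Fin n) ℝ) (z : EuclideanSpace ℝ (Fin (n + d))) :
    ll n d (TT g z) = ll n d z := by
  by_cases h : 0 < d
  · simp only [ll, h, dif_pos]
    show (TT g z) (Fin.natAdd n ⟨0, h⟩) = z (Fin.natAdd n ⟨0, h⟩)
    rw [TT, bl_apply_inr, Matrix.one_mulVec]
  · simp [ll, h]

/-- The vector `τ₀`. -/
noncomputable def tau (n d : ℕ) : EuclideanSpace ℝ (Fin (n + d)) :=
  if h : 0 < d then EuclideanSpace.single (Fin.natAdd n ⟨0, h⟩) 1 else 0

lemma tau_castAdd (i : Fin n) : tau n d (Fin.castAdd d i) = 0 := by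
  by_cases h : 0 < d
  · simp only [tau, h, dif_pos]
    rw [PiLp.single_apply, if_neg]
    intro h'
    have := congrArg Fin.val h'
    simp at this
    omega
  · simp [tau, h]

lemma ll_tau {j : ℕ} (h : 0 < d ∨ j = 0) (r : ℝ) : (ll n d (r • tau n d)) ^ j = r ^ j := by
  by_cases hd : 0 < d
  · congr 1
    simp only [ll, tau, hd, dif_pos]
    simp
  · rcases h with h | h
    · exact absurd h hd
    · rw [h, pow_zero, pow_zero]

lemma TT_tau (g : Matrix.SpecialLinearGroup (Fin n) ℝ) : TT g (tau n d) = tau n d := by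
  refine ext_blk (fun i => ?_) (fun i => ?_)
  · rw [TT, bl_apply_inl, tau_castAdd]
    simp only [tau_castAdd]
    show (g.1 *ᵥ 0) i = 0
    rw [Matrix.mulVec_zero]
    rfl
  · rw [TT, bl_apply_inr, Matrix.one_mulVec]

lemma PP_tau : PP (tau n d) = 0 := by
  refine ext_blk (fun i => ?_) (fun i => ?_)
  · rw [PP, bl_apply_inl, Matrix.one_mulVec, tau_castAdd]
    rfl
  · rw [PP, bl_apply_inr, Matrix.zero_mulVec]
    rfl

/-- continuity of the standard action -/
lemma TT_continuous : Continuous fun p : Matrix.SpecialLinearGroup (Fin n) ℝ ×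
    EuclideanSpace ℝ (Fin (n + d)) => TT p.1 p.2 := by
  have hc : ∀ i, Continuous fun p : Matrix.SpecialLinearGroup (Fin n) ℝ ×
      EuclideanSpace ℝ (Fin (n + d)) => (TT p.1 p.2) i := by
    intro i
    refine Fin.addCases (fun i => ?_) (fun i => ?_) i
    · simp only [TT, bl_apply_inl, Matrix.mulVec, dotProduct]
      refine continuous_finsetSum _ fun k _ => ?_
      refine Continuous.mul ?_ ?_
      · have h1 : Continuous fun g : Matrix.SpecialLinearGroup (Fin n) ℝ => g.1 i k := by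
          exact (continuous_apply_apply i k).comp continuous_subtype_val
        exact h1.comp continuous_fst
      · fun_prop
    · simp only [TT, bl_apply_inr, Matrix.one_mulVec]
      fun_prop
  exact (PiLp.continuous_toLp 2 _).comp (continuous_pi hc)

end blk

section diag

variable {n d : ℕ}

/-- diagonal entries `e^θ, e^(-θ), 1, …, 1` -/
noncomputable def dg (n : ℕ) (θ : ℝ) : Fin (n + 2) → ℝ :=
  fun i => if i = 0 then Real.exp θ else if i = 1 then Real.exp (-θ) else 1

lemma dg_prod (θ : ℝ) : ∏ i, dg n θ i = 1 := by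
  rw [Fin.prod_univ_succ, Fin.prod_univ_succ]
  have h1 : dg n θ 0 = Real.exp θ := by simp [dg]
  have h2 : dg n θ (Fin.succ 0) = Real.exp (-θ) := by simp [dg]
  have h3 : ∀ i : Fin n, dg n θ (Fin.succ (Fin.succ i)) = 1 := by
    intro i
    have : (Fin.succ (Fin.succ i)) ≠ (1 : Fin (n + 2)) := by
      intro h
      have := congrArg Fin.val h
      simp at this
    simp [dg, this, Fin.succ_ne_zero]
  simp only [h1, h2, h3, Finset.prod_const_one, mul_one]
  rw [← Real.exp_add, add_neg_cancel, Real.exp_zero]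

/-- The diagonal one-parameter group. -/
noncomputable def DD (n : ℕ) (θ : ℝ) : Matrix.SpecialLinearGroup (Fin (n + 2)) ℝ :=
  ⟨Matrix.diagonal (dg n θ), by rw [Matrix.det_diagonal, dg_prod]⟩

lemma DD_add (a b : ℝ) : DD n (a + b) = DD n a * DD n b := by
  apply Subtype.ext
  rw [Matrix.SpecialLinearGroup.coe_mul]
  simp only [DD, Matrix.diagonal_mul_diagonal]
  congr 1
  funext i
  simp only [dg]
  split_ifs
  · rw [Real.exp_add]
  · rw [neg_add, Real.exp_add]
  · rw [one_mul]

lemma DD_zero : DD n 0 = 1 := by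
  apply Subtype.ext
  simp only [DD, Matrix.SpecialLinearGroup.coe_one]
  rw [← Matrix.diagonal_one]
  congr 1
  funext i
  simp [dg]

lemma DD_continuous : Continuous (DD n) := by
  refine Continuous.subtype_mk ?_ _
  refine Continuous.matrix_diagonal ?_
  refine continuous_pi fun i => ?_
  simp only [dg]
  split_ifs <;> fun_prop

/-- The first basis vector. -/
noncomputable def ee (n d : ℕ) : EuclideanSpace ℝ (Fin (n + 2 + d)) :=
  EuclideanSpace.single (Fin.castAdd d 0) 1

lemma ee_inl (i : Fin (n + 2)) : ee n d (Fin.castAdd d i) = if i = 0 then 1 else 0 := by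
  rw [ee, PiLp.single_apply]
  congr 1
  simp [Fin.castAdd_inj]

lemma ee_inr (i : Fin d) : ee n d (Fin.natAdd (n + 2) i) = 0 := by
  rw [ee, PiLp.single_apply, if_neg]
  intro h
  have := congrArg Fin.val h
  simp at this

lemma ee_ne_zero : ee n d ≠ 0 := by
  intro h
  have := congrArg (fun z : EuclideanSpace ℝ (Fin (n + 2 + d)) => z (Fin.castAdd d 0)) h
  simp only [ee_inl, if_true] at this
  exact one_ne_zero this

lemma PP_ee : PP (ee n d) = ee n d := by
  refine ext_blk (fun i => ?_) (fun i => ?_)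
  · rw [PP, bl_apply_inl, Matrix.one_mulVec]
  · rw [PP, bl_apply_inr, Matrix.zero_mulVec, ee_inr]
    rfl

lemma ll_ee : ll (n + 2) d (ee n d) = 0 := by
  by_cases h : 0 < d
  · simp only [ll, h, dif_pos]
    show (ee n d) (Fin.natAdd (n + 2) ⟨0, h⟩) = 0
    exact ee_inr _
  · simp [ll, h]

lemma TT_DD_ee (θ : ℝ) : TT (DD n θ) (ee n d) = Real.exp θ • ee n d := by
  refine ext_blk (fun i => ?_) (fun i => ?_)
  · rw [TT, bl_apply_inl]
    simp only [DD, Matrix.mulVec_diagonal, PiLp.smul_apply, ee_inl, smul_eq_mul, mul_ite, mul_one,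
      mul_zero, dg]
    split_ifs <;> rfl
  · rw [TT, bl_apply_inr, Matrix.one_mulVec]
    simp [ee_inr]

lemma TT_DD (θ : ℝ) : (TT (DD n θ) : EuclideanSpace ℝ (Fin (n + 2 + d)) →L[ℝ]
      EuclideanSpace ℝ (Fin (n + 2 + d))) =
    Real.exp θ • bl (Matrix.diagonal fun i => if i = 0 then 1 else 0) 0 +
    Real.exp (-θ) • bl (Matrix.diagonal fun i => if i = 1 then 1 else 0) 0 +
    bl (Matrix.diagonal fun i => if i = 0 then 0 else if i = 1 then 0 else 1) 1 := by
  refine ContinuousLinearMap.ext fun z => ext_blk (fun i => ?_) (fun i => ?_)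
  · simp only [_root_.add_apply, _root_.smul_apply, PiLp.add_apply, PiLp.smul_apply, TT, bl_apply_inl, DD,
      Matrix.mulVec_diagonal, dg, smul_eq_mul]
    by_cases h0 : i = 0
    · subst h0
      simp
    · by_cases h1 : i = 1
      · subst h1
        simp
      · simp [h0, h1]
  · simp only [_root_.add_apply, _root_.smul_apply, PiLp.add_apply, PiLp.smul_apply, TT, bl_apply_inr,
      Matrix.one_mulVec, Matrix.zero_mulVec, smul_eq_mul, Pi.zero_apply, mul_zero, zero_add]

end diag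

end Pool.Agent.R777
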