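import Pool.Agent.R537.LR.Stm

/-!
# LR-NOB1: the a priori bounds, first step
-/

set_option autoImplicit false

namespace Pool.Agent.R777.LRNOB1

open Pool.Agent.NPC Pool.Agent.NPC.ER Pool.Agent.NPC.R537LR Finset

variable {R C : Type}

lemma w_nonneg (P : Pt R C) {W Q : ℝ} (hW : 0 ≤ W) (hQ : 0 ≤ Q) (r : R) (c : C) :
    0 ≤ P.w W Q r c := by
  unfold Pt.w
  apply mul_nonneg
  · split <;> positivity
  · split
    · positivity
    · split <;> positivity

lemma wN_le (P : Pt R C) (ok : P.OK) {W Q : ℝ} (hW : 4 ≤ W) (hQ : 1 ≤ Q) (r : R) (c : C)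
    (h : P.E r c = none) : P.w W Q r c * P.N r c ≤ W * Q := by
  unfold Pt.E at h
  unfold Pt.w Pt.N
  cases hc : P.tC c with
  | some j =>
    simp only [hc] at h ⊢
    cases hr : P.tR r with
    | some i =>
      have := (ok.tR_iff r i).1 hr
      rw [this, ok.rv_ar] at h
      simp at h
    | none => simp only; linarith
  | none =>
    simp only [hc] at h ⊢
    cases hr : P.tR r with
    | some i =>
      simp only [hr] at h ⊢
      by_cases hcc : c = P.co
      · rw [hcc, ok.cv_co] at h; simp at h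
      · rw [if_neg hcc]; linarith
    | none =>
      simp only
      split
      · nlinarith
      · nlinarith

lemma w_col (P : Pt R C) {W Q : ℝ} (hW : 1 ≤ W) (hQ : 1 ≤ Q) (r : R) (c : C) (j : Fin 3)
    (hc : P.tC c = some j) : W * Q ≤ P.w W Q r c := by
  unfold Pt.w
  simp only [hc]
  have h0 : 0 ≤ W * Q := by positivity
  cases hr : P.tR r with
  | some i => simp only; nlinarith
  | none => simp only; linarith

lemma w_col_none (P : Pt R C) {W Q : ℝ} (r : R) (c : C) (j : Fin 3)
    (hc : P.tC c = some j) (hr : P.tR r = none) : P.w W Q r c = W * Q := by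
  unfold Pt.w
  simp only [hc, hr]
  ring

lemma w_both (P : Pt R C) {W Q : ℝ} (r : R) (c : C) (i j : Fin 3)
    (hc : P.tC c = some j) (hr : P.tR r = some i) : P.w W Q r c = W * (W * Q) := by
  unfold Pt.w
  simp only [hc, hr]

lemma w_row (P : Pt R C) {W Q : ℝ} (r : R) (c : C) (i : Fin 3)
    (hc : P.tC c = none) (hco : c ≠ P.co) (hr : P.tR r = some i) : P.w W Q r c = W * Q := by
  unfold Pt.w
  simp only [hc, hr, if_neg hco]

lemma w_none (P : Pt R C) {W Q : ℝ} (hQ : 1 ≤ Q) (r : R) (c : C)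
    (hc : P.tC c = none) (hr : P.tR r = none) : P.w W Q r c ≤ Q := by
  unfold Pt.w
  simp only [hc, hr]
  split
  · linarith
  · linarith

lemma w_obj (P : Pt R C) (ok : P.OK) {W Q : ℝ} : P.w W Q P.ro P.co = 1 := by
  unfold Pt.w
  simp only [ok.co_none, ok.ro_none]
  simp

lemma E_obj (P : Pt R C) (ok : P.OK) : P.E P.ro P.co = some 1 := by
  unfold Pt.E
  simp only [ok.co_none, ok.ro_none]
  simp

lemma E_le (P : Pt R C) (ok : P.OK) {r : R} {c : C} {x : ℝ} (h : P.E r c = some x) : |x| ≤ 1 := by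
  unfold Pt.E at h
  cases hc : P.tC c with
  | some j => simp only [hc] at h; exact ok.rv_le _ _ _ h
  | none =>
    simp only [hc] at h
    cases hr : P.tR r with
    | some i => simp only [hr] at h; exact ok.cv_le _ _ _ h
    | none =>
      simp only [hr] at h
      split at h
      · simp only [Option.some.injEq] at h; rw [← h]; simp
      · split at h
        · simp only [Option.some.injEq] at h; rw [← h]; simp
        · simp at h

lemma rowA (P : Pt R C) (ok : P.OK) {m : ℕ} {H : ℕ → ℕ → ℝ} (gH : GoodH m H) (r : R) (c : C)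
    (a : Fin m) : |∑ b : Fin m, P.A H r c a b| ≤ m := by
  cases h : P.E r c with
  | none =>
    have h1 : ∑ b : Fin m, P.A H r c a b = 0 := by
      have h2 : ∀ b : Fin m, P.A H r c a b = P.N r c * H a b := fun b => by unfold Pt.A; rw [h]
      rw [Finset.sum_congr rfl (fun b _ => h2 b), ← Finset.mul_sum,
        ← Finset.sum_range (fun b => H a b), gH.row a a.2, mul_zero]
    rw [h1]; simp
  | some x =>
    have h1 : ∑ b : Fin m, P.A H r c a b = m * x := by
      have h2 : ∀ b : Fin m, P.A H r c a b = x := fun b => by unfold Pt.A; rw [h]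
      rw [Finset.sum_congr rfl (fun b _ => h2 b)]
      simp
    rw [h1, abs_mul, abs_of_nonneg (Nat.cast_nonneg m : (0:ℝ) ≤ m)]
    have := E_le P ok h
    nlinarith [Nat.cast_nonneg (α := ℝ) m]

lemma colA (P : Pt R C) (ok : P.OK) {m : ℕ} {H : ℕ → ℕ → ℝ} (gH : GoodH m H) (r : R) (c : C)
    (b : Fin m) : |∑ a : Fin m, P.A H r c a b| ≤ m := by
  cases h : P.E r c with
  | none =>
    have h1 : ∑ a : Fin m, P.A H r c a b = 0 := by
      have h2 : ∀ a : Fin m, P.A H r c a b = P.N r c * H a b := fun a => by unfold Pt.A; rw [h]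
      rw [Finset.sum_congr rfl (fun a _ => h2 a), ← Finset.mul_sum,
        ← Finset.sum_range (fun a => H a b), gH.col b b.2, mul_zero]
    rw [h1]; simp
  | some x =>
    have h1 : ∑ a : Fin m, P.A H r c a b = m * x := by
      have h2 : ∀ a : Fin m, P.A H r c a b = x := fun a => by unfold Pt.A; rw [h]
      rw [Finset.sum_congr rfl (fun a _ => h2 a)]
      simp
    rw [h1, abs_mul, abs_of_nonneg (Nat.cast_nonneg m : (0:ℝ) ≤ m)]
    have := E_le P ok h
    nlinarith [Nat.cast_nonneg (α := ℝ) m]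

lemma rowsum_le {m : ℕ} (f g : Fin m → Fin m → ℝ) (K : ℝ)
    (hf : ∀ a, |∑ b, f a b| ≤ K) :
    ∑ a, |∑ b, g a b| ≤ (∑ a, ∑ b, |f a b - g a b|) + m * K := by
  have h1 : ∀ a, |∑ b, g a b| ≤ (∑ b, |f a b - g a b|) + K := by
    intro a
    have e : ∑ b, g a b = (∑ b, f a b) - ∑ b, (f a b - g a b) := by
      rw [Finset.sum_sub_distrib]; ring
    have h2 : |∑ b, (f a b - g a b)| ≤ ∑ b, |f a b - g a b| := Finset.abs_sum_le_sum_abs _ _
    have h3 := abs_sub (∑ b, f a b) (∑ b, (f a b - g a b))
    rw [e]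
    linarith [hf a]
  calc ∑ a, |∑ b, g a b| ≤ ∑ a, ((∑ b, |f a b - g a b|) + K) := Finset.sum_le_sum fun a _ => h1 a
    _ = _ := by rw [Finset.sum_add_distrib]; simp

lemma colsum_le {m : ℕ} (f g : Fin m → Fin m → ℝ) (K : ℝ)
    (hf : ∀ b, |∑ a, f a b| ≤ K) :
    ∑ b, |∑ a, g a b| ≤ (∑ a, ∑ b, |f a b - g a b|) + m * K := by
  rw [Finset.sum_comm (f := fun a b => |f a b - g a b|)]
  exact rowsum_le (fun b a => f a b) (fun b a => g a b) K hf

lemma single_le [Fintype R] [Fintype C] (t : R → C → ℝ) (K : ℝ)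
    (h : ∑ r, ∑ c, t r c < 0) (hl : ∀ r c, -K ≤ t r c) (hK : 0 ≤ K) (r0 : R) (c0 : C) :
    t r0 c0 ≤ (Fintype.card R * Fintype.card C : ℕ) * K := by
  have h1 : t r0 c0 + K ≤ ∑ r, ∑ c, (t r c + K) := by
    have h2 : ∑ c, (t r0 c + K) ≤ ∑ r, ∑ c, (t r c + K) :=
      Finset.single_le_sum (f := fun r => ∑ c, (t r c + K))
        (fun r _ => Finset.sum_nonneg fun c _ => by linarith [hl r c]) (Finset.mem_univ r0)
    have h3 : t r0 c0 + K ≤ ∑ c, (t r0 c + K) :=
      Finset.single_le_sum (f := fun c => t r0 c + K)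
        (fun c _ => by linarith [hl r0 c]) (Finset.mem_univ c0)
    linarith
  have h4 : ∑ r : R, ∑ c : C, (t r c + K) =
      (∑ r, ∑ c, t r c) + (Fintype.card R * Fintype.card C : ℕ) * K := by
    simp only [Finset.sum_add_distrib, Finset.sum_const, Finset.card_univ, nsmul_eq_mul]
    push_cast
    ring
  linarith

/-- inversion of a matrix close to the identity -/
lemma inv_le (Y : Fin 3 → Fin 3 → ℝ) (hY : ∀ i s, |Y i s - if i = s then 1 else 0| ≤ 1 / 100)
    (v : Fin 3 → ℝ) : ∑ s, |v s| ≤ (100 / 97) * ∑ i, |∑ s, Y i s * v s| := by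
  have h1 : ∀ i, |v i| ≤ |∑ s, Y i s * v s| + 1 / 100 * ∑ s, |v s| := by
    intro i
    have e : v i = (∑ s, Y i s * v s) - ∑ s, (Y i s - if i = s then 1 else 0) * v s := by
      rw [← Finset.sum_sub_distrib]
      have : ∀ s, Y i s * v s - (Y i s - if i = s then 1 else 0) * v s = if i = s then v s else 0 := by
        intro s; split <;> ring
      rw [Finset.sum_congr rfl (fun s _ => this s)]
      simp
    have h2 : |∑ s, (Y i s - if i = s then 1 else 0) * v s| ≤ 1 / 100 * ∑ s, |v s| := by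
      refine (Finset.abs_sum_le_sum_abs _ _).trans ?_
      rw [Finset.mul_sum]
      refine Finset.sum_le_sum fun s _ => ?_
      rw [abs_mul]
      exact mul_le_mul_of_nonneg_right (hY i s) (abs_nonneg _)
    have h3 := abs_sub (∑ s, Y i s * v s) (∑ s, (Y i s - if i = s then 1 else 0) * v s)
    rw [← e] at h3
    linarith
  have h4 : ∑ i, |v i| ≤ ∑ i, (|∑ s, Y i s * v s| + 1 / 100 * ∑ s, |v s|) :=
    Finset.sum_le_sum fun i _ => h1 i
  rw [Finset.sum_add_distrib] at h4
  simp only [Finset.sum_const, Finset.card_univ, Fintype.card_fin, nsmul_eq_mul] at h4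
  push_cast at h4
  linarith

lemma mask_lower {m : ℕ} {H : ℕ → ℕ → ℝ} (gH : GoodH m H) (X : Fin m → Fin m → ℝ) :
    (m : ℝ) ^ 2 - ∑ a : Fin m, |∑ b : Fin m, H a b * X a b| ≤
      ∑ a : Fin m, ∑ b : Fin m, |1 * H a b - X a b| := by
  have h1 : ∀ a : Fin m, (m : ℝ) - |∑ b : Fin m, H a b * X a b| ≤
      ∑ b : Fin m, |1 * H a b - X a b| := by
    intro a
    have h2 : ∑ b : Fin m, (1 - H a b * X a b) ≤ ∑ b : Fin m, |1 * H a b - X a b| := by
      refine Finset.sum_le_sum fun b _ => ?_
      rcases gH.sign a b with h | h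
      · rw [h]
        have := le_abs_self (1 * 1 - X a b)
        linarith
      · rw [h]
        have := neg_abs_le (1 * (-1) - X a b)
        linarith
    have h3 : ∑ b : Fin m, (1 - H a b * X a b) = m - ∑ b : Fin m, H a b * X a b := by
      rw [Finset.sum_sub_distrib]; simp
    have h4 := le_abs_self (∑ b : Fin m, H a b * X a b)
    linarith
  calc (m : ℝ) ^ 2 - ∑ a : Fin m, |∑ b : Fin m, H a b * X a b|
      = ∑ a : Fin m, ((m : ℝ) - |∑ b : Fin m, H a b * X a b|) := by
        rw [Finset.sum_sub_distrib]; simp; ring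
    _ ≤ _ := Finset.sum_le_sum fun a _ => h1 a

lemma mask_lower' {m : ℕ} {H : ℕ → ℕ → ℝ} (gH : GoodH m H) (X : Fin m → Fin m → ℝ) :
    (m : ℝ) ^ 2 - ∑ b : Fin m, |∑ a : Fin m, H a b * X a b| ≤
      ∑ a : Fin m, ∑ b : Fin m, |1 * H a b - X a b| := by
  have h1 : ∀ b : Fin m, (m : ℝ) - |∑ a : Fin m, H a b * X a b| ≤
      ∑ a : Fin m, |1 * H a b - X a b| := by
    intro b
    have h2 : ∑ a : Fin m, (1 - H a b * X a b) ≤ ∑ a : Fin m, |1 * H a b - X a b| := by
      refine Finset.sum_le_sum fun a _ => ?_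
      rcases gH.sign a b with h | h
      · rw [h]
        have := le_abs_self (1 * 1 - X a b)
        linarith
      · rw [h]
        have := neg_abs_le (1 * (-1) - X a b)
        linarith
    have h3 : ∑ a : Fin m, (1 - H a b * X a b) = m - ∑ a : Fin m, H a b * X a b := by
      rw [Finset.sum_sub_distrib]; simp
    have h4 := le_abs_self (∑ a : Fin m, H a b * X a b)
    linarith
  rw [Finset.sum_comm (f := fun a b : Fin m => |1 * H a b - X a b|)]
  calc (m : ℝ) ^ 2 - ∑ b : Fin m, |∑ a : Fin m, H a b * X a b|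
      = ∑ b : Fin m, ((m : ℝ) - |∑ a : Fin m, H a b * X a b|) := by
        rw [Finset.sum_sub_distrib]; simp; ring
    _ ≤ _ := Finset.sum_le_sum fun b _ => h1 b

/-- the gain of a mask, rows -/
lemma gain_row {m : ℕ} {H : ℕ → ℕ → ℝ} (gH : GoodH m H) (p l : Fin m → Fin 3 → ℝ)
    (e : Fin 3 → ℝ) (S V : ℝ) (hp : ∀ s, ∑ a, |p a s| ≤ S)
    (hl : ∑ b, ∑ s, |l b s - e s| ≤ V) :
    ∑ a : Fin m, |∑ b : Fin m, H a b * ∑ s, p a s * l b s| ≤ S * V := by
  have h1 : ∀ a : Fin m, |∑ b : Fin m, H a b * ∑ s, p a s * l b s| ≤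
      ∑ s, |p a s| * ∑ b, |l b s - e s| := by
    intro a
    have e1 : ∑ b : Fin m, H a b * ∑ s, p a s * l b s =
        ∑ b : Fin m, ∑ s, H a b * (p a s * (l b s - e s)) := by
      have e2 : ∑ b : Fin m, H a b * ∑ s, p a s * e s = 0 := by
        rw [← Finset.sum_mul, ← Finset.sum_range (fun b => H a b), gH.row a a.2, zero_mul]
      have e3 : ∑ b : Fin m, ∑ s, H a b * (p a s * (l b s - e s)) =
          (∑ b : Fin m, H a b * ∑ s, p a s * l b s) - ∑ b : Fin m, H a b * ∑ s, p a s * e s := by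
        rw [← Finset.sum_sub_distrib]
        refine Finset.sum_congr rfl fun b _ => ?_
        rw [← mul_sub, ← Finset.sum_sub_distrib, Finset.mul_sum]
        refine Finset.sum_congr rfl fun s _ => ?_
        ring
      rw [e3, e2, sub_zero]
    rw [e1]
    calc |∑ b : Fin m, ∑ s, H a b * (p a s * (l b s - e s))|
        ≤ ∑ b : Fin m, ∑ s, |p a s| * |l b s - e s| := by
          refine (Finset.abs_sum_le_sum_abs _ _).trans (Finset.sum_le_sum fun b _ => ?_)
          refine (Finset.abs_sum_le_sum_abs _ _).trans (Finset.sum_le_sum fun s _ => ?_)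
          have hs : |H a b| = 1 := by rcases gH.sign a b with h | h <;> rw [h] <;> simp
          rw [abs_mul, hs, one_mul, abs_mul]
      _ = ∑ s, |p a s| * ∑ b, |l b s - e s| := by
          rw [Finset.sum_comm]
          refine Finset.sum_congr rfl fun s _ => ?_
          rw [Finset.mul_sum]
  calc ∑ a : Fin m, |∑ b : Fin m, H a b * ∑ s, p a s * l b s|
      ≤ ∑ a : Fin m, ∑ s, |p a s| * ∑ b, |l b s - e s| := Finset.sum_le_sum fun a _ => h1 a
    _ = ∑ s, (∑ a, |p a s|) * ∑ b, |l b s - e s| := by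
        rw [Finset.sum_comm]
        refine Finset.sum_congr rfl fun s _ => ?_
        rw [Finset.sum_mul]
    _ ≤ ∑ s, S * ∑ b, |l b s - e s| := by
        refine Finset.sum_le_sum fun s _ => mul_le_mul_of_nonneg_right (hp s) ?_
        exact Finset.sum_nonneg fun b _ => abs_nonneg _
    _ = S * ∑ b, ∑ s, |l b s - e s| := by
        rw [← Finset.mul_sum, Finset.sum_comm]
    _ ≤ S * V := by
        refine mul_le_mul_of_nonneg_left hl ?_
        exact (Finset.sum_nonneg fun a _ => abs_nonneg _).trans (hp 0)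

/-- the gain of a mask, columns -/
lemma gain_col {m : ℕ} {H : ℕ → ℕ → ℝ} (gH : GoodH m H) (p l : Fin m → Fin 3 → ℝ)
    (e : Fin 3 → ℝ) (S V : ℝ) (hp : ∀ s, ∑ a, |p a s - e s| ≤ S)
    (hl : ∑ b, ∑ s, |l b s| ≤ V) :
    ∑ b : Fin m, |∑ a : Fin m, H a b * ∑ s, p a s * l b s| ≤ S * V := by
  have h1 : ∀ b : Fin m, |∑ a : Fin m, H a b * ∑ s, p a s * l b s| ≤
      ∑ s, |l b s| * ∑ a, |p a s - e s| := by
    intro b
    have e1 : ∑ a : Fin m, H a b * ∑ s, p a s * l b s =
        ∑ a : Fin m, ∑ s, H a b * ((p a s - e s) * l b s) := by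
      have e2 : ∑ a : Fin m, H a b * ∑ s, e s * l b s = 0 := by
        rw [← Finset.sum_mul, ← Finset.sum_range (fun a => H a b), gH.col b b.2, zero_mul]
      have e3 : ∑ a : Fin m, ∑ s, H a b * ((p a s - e s) * l b s) =
          (∑ a : Fin m, H a b * ∑ s, p a s * l b s) - ∑ a : Fin m, H a b * ∑ s, e s * l b s := by
        rw [← Finset.sum_sub_distrib]
        refine Finset.sum_congr rfl fun a _ => ?_
        rw [← mul_sub, ← Finset.sum_sub_distrib, Finset.mul_sum]
        refine Finset.sum_congr rfl fun s _ => ?_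
        ring
      rw [e3, e2, sub_zero]
    rw [e1]
    calc |∑ a : Fin m, ∑ s, H a b * ((p a s - e s) * l b s)|
        ≤ ∑ a : Fin m, ∑ s, |l b s| * |p a s - e s| := by
          refine (Finset.abs_sum_le_sum_abs _ _).trans (Finset.sum_le_sum fun a _ => ?_)
          refine (Finset.abs_sum_le_sum_abs _ _).trans (Finset.sum_le_sum fun s _ => ?_)
          have hs : |H a b| = 1 := by rcases gH.sign a b with h | h <;> rw [h] <;> simp
          rw [abs_mul, hs, one_mul, abs_mul, mul_comm]
      _ = ∑ s, |l b s| * ∑ a, |p a s - e s| := by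
          rw [Finset.sum_comm]
          refine Finset.sum_congr rfl fun s _ => ?_
          rw [Finset.mul_sum]
  have hS : 0 ≤ S := (Finset.sum_nonneg fun a _ => abs_nonneg _).trans (hp 0)
  calc ∑ b : Fin m, |∑ a : Fin m, H a b * ∑ s, p a s * l b s|
      ≤ ∑ b : Fin m, ∑ s, |l b s| * ∑ a, |p a s - e s| := Finset.sum_le_sum fun b _ => h1 b
    _ ≤ ∑ b : Fin m, ∑ s, |l b s| * S := by
        refine Finset.sum_le_sum fun b _ => Finset.sum_le_sum fun s _ => ?_
        exact mul_le_mul_of_nonneg_left (hp s) (abs_nonneg _)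
    _ = S * ∑ b, ∑ s, |l b s| := by
        rw [Finset.mul_sum]
        refine Finset.sum_congr rfl fun b _ => ?_
        rw [← Finset.sum_mul, mul_comm]
    _ ≤ S * V := mul_le_mul_of_nonneg_left hl hS

lemma base_le [Fintype R] [Fintype C] (P : Pt R C) (ok : P.OK) (m n : ℕ) {W Q : ℝ} (hW : 4 ≤ W)
    (hQ : 1 ≤ Q) (hn : n = Fintype.card R * Fintype.card C) (hn1 : 1 ≤ n) :
    P.base m W Q ≤ 2 * n * m ^ 2 * (W * Q) := by
  unfold Pt.base
  have hWQ : 0 ≤ W * Q := by positivity
  have hnR : (1 : ℝ) ≤ n := by exact_mod_cast hn1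
  have h2 : (1 : ℝ) ≤ n * (W * Q) := by nlinarith
  have hm2 : (0 : ℝ) ≤ (m : ℝ) ^ 2 := by positivity
  have h3 : 2 * n * m ^ 2 * (W * Q) = (n * (W * Q) + n * (W * Q)) * (m : ℝ) ^ 2 := by ring
  rw [h3]
  refine mul_le_mul_of_nonneg_right (add_le_add ?_ h2) hm2
  calc _ ≤ ∑ r : R, ∑ c : C, W * Q := by
        refine Finset.sum_le_sum fun r _ => Finset.sum_le_sum fun c _ => ?_
        split
        · next h => exact wN_le P ok hW hQ r c h
        · exact hWQ
    _ = n * (W * Q) := by
        simp only [Finset.sum_const, Finset.card_univ, nsmul_eq_mul]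
        rw [hn]; push_cast; ring

theorem t_NOB1 : S_NOB1 := by
  classical
  intro R C _ _ _ _ P m n H W Q p l ok gH hn big hnorm hcost
  obtain ⟨hn1, hm, hQ, hW⟩ := big
  have hnR : (1 : ℝ) ≤ n := by exact_mod_cast hn1
  have hmR : (2 ^ 19 : ℝ) * n ^ 2 ≤ m := by exact_mod_cast hm
  have hm1 : (1 : ℝ) ≤ m := by nlinarith
  have hm0 : (0 : ℝ) < m := by linarith
  have hW0 : 2 ^ 20 * (n : ℝ) ≤ W := by
    refine le_trans ?_ hW
    have h1 : (n : ℝ) ≤ n ^ 3 := le_self_pow₀ hnR (by norm_num)
    have h2 : (n : ℝ) ^ 3 ≤ n ^ 3 * m := le_mul_of_one_le_right (by positivity) hm1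
    have h3 : (n : ℝ) ^ 3 * m ≤ n ^ 3 * m * Q := le_mul_of_one_le_right (by positivity) hQ
    have : (n : ℝ) ≤ n ^ 3 * m * Q := by linarith
    calc 2 ^ 20 * (n : ℝ) ≤ 2 ^ 20 * (n ^ 3 * m * Q) := by linarith
      _ = _ := by ring
  have hW4 : 4 ≤ W := by nlinarith
  have hW1 : 1 ≤ W := by linarith
  have hWp : 0 < W := by linarith
  have hQp : 0 < Q := by linarith
  have hWQ : 0 < W * Q := by positivity
  have hWinv : (n : ℝ) / W ≤ 1 / 2 ^ 20 := by
    rw [div_le_div_iff₀ hWp (by norm_num)]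
    linarith
  set X : R → Fin m → C → Fin m → ℝ := fun r a c b => ∑ s, p r a s * l c b s with hX
  set D : R → C → ℝ := fun r c => ∑ a : Fin m, ∑ b : Fin m, |P.A H r c a b - X r a c b| with hD
  have hD0 : ∀ r c, 0 ≤ D r c := fun r c =>
    Finset.sum_nonneg fun a _ => Finset.sum_nonneg fun b _ => abs_nonneg _
  have hw0 : ∀ r c, 0 ≤ P.w W Q r c := fun r c => w_nonneg P hWp.le hQp.le r c
  have hcost' : ∑ r, ∑ c, P.w W Q r c * D r c < P.base m W Q := hcost
  have hbase := base_le P ok m n hW4 hQ hn hn1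
  have hwD : ∀ r c, P.w W Q r c * D r c ≤ 2 * n * m ^ 2 * (W * Q) := by
    intro r c
    have h1 : P.w W Q r c * D r c ≤ ∑ c, P.w W Q r c * D r c :=
      Finset.single_le_sum (f := fun c => P.w W Q r c * D r c)
        (fun c _ => mul_nonneg (hw0 r c) (hD0 r c)) (Finset.mem_univ c)
    have h2 : ∑ c, P.w W Q r c * D r c ≤ ∑ r, ∑ c, P.w W Q r c * D r c :=
      Finset.single_le_sum (f := fun r => ∑ c, P.w W Q r c * D r c)
        (fun r _ => Finset.sum_nonneg fun c _ => mul_nonneg (hw0 r c) (hD0 r c))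
        (Finset.mem_univ r)
    linarith
  have htac : ∀ j, P.tC (P.ac j) = some j := fun j => (ok.tC_iff _ _).2 rfl
  have htar : ∀ i, P.tR (P.ar i) = some i := fun i => (ok.tR_iff _ _).2 rfl
  have hD1 : ∀ r j, D r (P.ac j) ≤ 2 * n * m ^ 2 := by
    intro r j
    have h1 := w_col P hW1 hQ r (P.ac j) j (htac j)
    have h2 := mul_le_mul_of_nonneg_right h1 (hD0 r (P.ac j))
    have h3 := hwD r (P.ac j)
    have h4 : D r (P.ac j) * (W * Q) ≤ 2 * n * m ^ 2 * (W * Q) := by linarith
    exact le_of_mul_le_mul_right h4 hWQ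
  have hD2 : ∀ i j, D (P.ar i) (P.ac j) ≤ 2 * n * m ^ 2 / W := by
    intro i j
    have h1 := w_both P (W := W) (Q := Q) (P.ar i) (P.ac j) i j (htac j) (htar i)
    have h3 := hwD (P.ar i) (P.ac j)
    rw [h1] at h3
    rw [le_div_iff₀ hWp]
    have h4 : D (P.ar i) (P.ac j) * W * (W * Q) ≤ 2 * n * m ^ 2 * (W * Q) := by linarith
    exact le_of_mul_le_mul_right h4 hWQ
  have hD3 : ∀ i c, P.tC c = none → c ≠ P.co → D (P.ar i) c ≤ 2 * n * m ^ 2 := by
    intro i c hc hco
    have h1 := w_row P (W := W) (Q := Q) (P.ar i) c i hc hco (htar i)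
    have h3 := hwD (P.ar i) c
    rw [h1] at h3
    have h4 : D (P.ar i) c * (W * Q) ≤ 2 * n * m ^ 2 * (W * Q) := by linarith
    exact le_of_mul_le_mul_right h4 hWQ
  -- sums
  have hsl : ∀ j s, ∑ b, l (P.ac j) b s = m * (if j = s then 1 else 0) := by
    intro j s
    have h1 := hnorm j s
    unfold mean at h1
    rw [div_eq_iff hm0.ne'] at h1
    rw [h1]; ring
  have hrow : ∀ r j (a : Fin m), ∑ b, X r a (P.ac j) b = m * p r a j := by
    intro r j a
    rw [hX]
    simp only
    rw [Finset.sum_comm]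
    have : ∀ s, ∑ b, p r a s * l (P.ac j) b s = if j = s then m * p r a s else 0 := by
      intro s
      rw [← Finset.mul_sum, hsl]
      split <;> ring
    rw [Finset.sum_congr rfl (fun s _ => this s)]
    simp
  have hcol : ∀ i c (b : Fin m), ∑ a, X (P.ar i) a c b =
      m * ∑ s, mean p (P.ar i) s * l c b s := by
    intro i c b
    rw [hX]
    simp only
    rw [Finset.sum_comm, Finset.mul_sum]
    refine Finset.sum_congr rfl fun s _ => ?_
    rw [← Finset.sum_mul]
    unfold mean
    field_simp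
  have hEaa : ∀ i j, P.E (P.ar i) (P.ac j) = some (if i = j then 1 else 0) := by
    intro i j
    unfold Pt.E
    rw [htac j]
    simp only
    exact ok.rv_ar i j
  have hAaa : ∀ i j (a b : ℕ), P.A H (P.ar i) (P.ac j) a b = if i = j then 1 else 0 := by
    intro i j a b
    unfold Pt.A
    rw [hEaa]
  -- (i)
  have hb1 : ∀ r j, ∑ a, |p r a j| ≤ 3 * n * m := by
    intro r j
    have h1 := rowsum_le (fun a b : Fin m => P.A H r (P.ac j) a b)
      (fun a b => X r a (P.ac j) b) m (fun a => rowA P ok gH r (P.ac j) a)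
    have h2 : ∑ a, |∑ b, X r a (P.ac j) b| = m * ∑ a, |p r a j| := by
      rw [Finset.mul_sum]
      refine Finset.sum_congr rfl fun a _ => ?_
      rw [hrow, abs_mul, abs_of_pos hm0]
    rw [h2] at h1
    have h3 := hD1 r j
    have h4 : m * ∑ a, |p r a j| ≤ m * (3 * n * m) := by
      have h5 : m * ∑ a, |p r a j| ≤ 2 * n * m ^ 2 + m * m := by
        refine h1.trans ?_
        have : D r (P.ac j) = ∑ a : Fin m, ∑ b : Fin m, |P.A H r (P.ac j) a b - X r a (P.ac j) b| := rfl
        rw [← this]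
        linarith
      nlinarith [mul_nonneg hm0.le hm0.le]
    exact le_of_mul_le_mul_left h4 hm0
  -- (iii)
  have hb2 : ∀ i s, ∑ a, |p (P.ar i) a s - if i = s then 1 else 0| ≤ 2 * m * (n / W) := by
    intro i s
    have h1 : ∑ a : Fin m, |∑ b : Fin m, (P.A H (P.ar i) (P.ac s) a b - X (P.ar i) a (P.ac s) b)| ≤
        D (P.ar i) (P.ac s) := Finset.sum_le_sum fun a _ => Finset.abs_sum_le_sum_abs _ _
    have h2 : ∑ a : Fin m, |∑ b : Fin m, (P.A H (P.ar i) (P.ac s) a b - X (P.ar i) a (P.ac s) b)| =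
        m * ∑ a, |p (P.ar i) a s - if i = s then 1 else 0| := by
      rw [Finset.mul_sum]
      refine Finset.sum_congr rfl fun a _ => ?_
      rw [Finset.sum_sub_distrib, hrow]
      simp only [hAaa, Finset.sum_const, Finset.card_univ, Fintype.card_fin, nsmul_eq_mul]
      rw [← mul_sub, abs_mul, abs_of_pos hm0, abs_sub_comm]
    rw [h2] at h1
    have h3 := h1.trans (hD2 i s)
    have h4 : m * ∑ a, |p (P.ar i) a s - if i = s then 1 else 0| ≤ m * (2 * m * (n / W)) := by
      refine h3.trans (le_of_eq ?_)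
      ring
    exact le_of_mul_le_mul_left h4 hm0
  have hY : ∀ i s, |mean p (P.ar i) s - if i = s then 1 else 0| ≤ 2 * (n / W) := by
    intro i s
    have h1 : mean p (P.ar i) s - (if i = s then 1 else 0) =
        (∑ a, (p (P.ar i) a s - if i = s then 1 else 0)) / m := by
      unfold mean
      rw [Finset.sum_sub_distrib]
      simp only [Finset.sum_const, Finset.card_univ, Fintype.card_fin, nsmul_eq_mul]
      field_simp
    rw [h1, abs_div, abs_of_pos hm0, div_le_iff₀ hm0]
    refine (Finset.abs_sum_le_sum_abs _ _).trans ((hb2 i s).trans (le_of_eq ?_))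
    ring
  have hY' : ∀ i s, |mean p (P.ar i) s - if i = s then 1 else 0| ≤ 1 / 100 := by
    intro i s
    refine (hY i s).trans ?_
    have := hWinv
    norm_num at this ⊢
    linarith
  -- (ii)
  have hb3 : ∀ j, ∑ b, ∑ s, |l (P.ac j) b s - if j = s then 1 else 0| ≤ 13 * m * (n / W) := by
    intro j
    have h1 : ∀ i, ∑ b, |∑ s, mean p (P.ar i) s * (l (P.ac j) b s - if j = s then 1 else 0)| ≤
        4 * m * (n / W) := by
      intro i
      have h2 : ∑ b : Fin m, |∑ a : Fin m, (P.A H (P.ar i) (P.ac j) a b - X (P.ar i) a (P.ac j) b)| ≤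
          D (P.ar i) (P.ac j) := by
        rw [hD]
        simp only
        rw [Finset.sum_comm]
        exact Finset.sum_le_sum fun b _ => Finset.abs_sum_le_sum_abs _ _
      have h3 : ∑ b : Fin m, |∑ a : Fin m, (P.A H (P.ar i) (P.ac j) a b - X (P.ar i) a (P.ac j) b)| =
          m * ∑ b, |(∑ s, mean p (P.ar i) s * l (P.ac j) b s) - if i = j then 1 else 0| := by
        rw [Finset.mul_sum]
        refine Finset.sum_congr rfl fun b _ => ?_
        rw [Finset.sum_sub_distrib, hcol]
        simp only [hAaa, Finset.sum_const, Finset.card_univ, Fintype.card_fin, nsmul_eq_mul]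
        rw [← mul_sub, abs_mul, abs_of_pos hm0, abs_sub_comm]
      rw [h3] at h2
      have h4 := h2.trans (hD2 i j)
      have h5 : m * ∑ b, |(∑ s, mean p (P.ar i) s * l (P.ac j) b s) - if i = j then 1 else 0| ≤
          m * (2 * m * (n / W)) := by
        refine h4.trans (le_of_eq ?_)
        ring
      have h6 := le_of_mul_le_mul_left h5 hm0
      have h7 : ∀ b, |∑ s, mean p (P.ar i) s * (l (P.ac j) b s - if j = s then 1 else 0)| ≤
          |(∑ s, mean p (P.ar i) s * l (P.ac j) b s) - if i = j then 1 else 0| + 2 * (n / W) := by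
        intro b
        have e : ∑ s, mean p (P.ar i) s * (l (P.ac j) b s - if j = s then 1 else 0) =
            ((∑ s, mean p (P.ar i) s * l (P.ac j) b s) - if i = j then 1 else 0) -
              (mean p (P.ar i) j - if i = j then 1 else 0) := by
          simp only [mul_sub, Finset.sum_sub_distrib, mul_ite, mul_one, mul_zero,
            Finset.sum_ite_eq, Finset.mem_univ, if_true]
          ring
        rw [e]
        refine (abs_sub _ _).trans ?_
        linarith [hY i j]
      calc ∑ b, |∑ s, mean p (P.ar i) s * (l (P.ac j) b s - if j = s then 1 else 0)|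
          ≤ ∑ b, (|(∑ s, mean p (P.ar i) s * l (P.ac j) b s) - if i = j then 1 else 0| +
              2 * (n / W)) := Finset.sum_le_sum fun b _ => h7 b
        _ = (∑ b, |(∑ s, mean p (P.ar i) s * l (P.ac j) b s) - if i = j then 1 else 0|) +
              m * (2 * (n / W)) := by
            rw [Finset.sum_add_distrib]; simp
        _ ≤ 4 * m * (n / W) := by linarith
    have h8 : ∀ b, ∑ s, |l (P.ac j) b s - if j = s then 1 else 0| ≤ (100 / 97) *
        ∑ i, |∑ s, mean p (P.ar i) s * (l (P.ac j) b s - if j = s then 1 else 0)| := fun b =>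
      inv_le (fun i s => mean p (P.ar i) s) hY' (fun s => l (P.ac j) b s - if j = s then 1 else 0)
    calc ∑ b, ∑ s, |l (P.ac j) b s - if j = s then 1 else 0| ≤ ∑ b, (100 / 97) *
        ∑ i, |∑ s, mean p (P.ar i) s * (l (P.ac j) b s - if j = s then 1 else 0)| :=
          Finset.sum_le_sum fun b _ => h8 b
      _ = (100 / 97) * ∑ i, ∑ b,
          |∑ s, mean p (P.ar i) s * (l (P.ac j) b s - if j = s then 1 else 0)| := by
          rw [← Finset.mul_sum, Finset.sum_comm]
      _ ≤ (100 / 97) * ∑ i : Fin 3, 4 * (m : ℝ) * (n / W) := by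
          refine mul_le_mul_of_nonneg_left (Finset.sum_le_sum fun i _ => h1 i) (by norm_num)
      _ ≤ 13 * m * (n / W) := by
          simp only [Finset.sum_const, Finset.card_univ, Fintype.card_fin, nsmul_eq_mul]
          push_cast
          have : 0 ≤ m * (n / W) := by positivity
          linarith
  -- (iv)
  have hb4 : ∀ c, P.tC c = none → c ≠ P.co → ∑ b, ∑ s, |l c b s| ≤ 10 * n * m := by
    intro c hc hco
    have h1 : ∀ i, ∑ b, |∑ s, mean p (P.ar i) s * l c b s| ≤ 3 * n * m := by
      intro i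
      have h2 := colsum_le (fun a b : Fin m => P.A H (P.ar i) c a b)
        (fun a b => X (P.ar i) a c b) m (fun b => colA P ok gH (P.ar i) c b)
      have h3 : ∑ b, |∑ a, X (P.ar i) a c b| = m * ∑ b, |∑ s, mean p (P.ar i) s * l c b s| := by
        rw [Finset.mul_sum]
        refine Finset.sum_congr rfl fun b _ => ?_
        rw [hcol, abs_mul, abs_of_pos hm0]
      rw [h3] at h2
      have h4 := hD3 i c hc hco
      have h5 : m * ∑ b, |∑ s, mean p (P.ar i) s * l c b s| ≤ m * (3 * n * m) := by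
        have h6 : m * ∑ b, |∑ s, mean p (P.ar i) s * l c b s| ≤ 2 * n * m ^ 2 + m * m := by
          refine h2.trans ?_
          have : D (P.ar i) c = ∑ a : Fin m, ∑ b : Fin m, |P.A H (P.ar i) c a b - X (P.ar i) a c b| := rfl
          rw [← this]
          linarith
        nlinarith [mul_nonneg hm0.le hm0.le]
      exact le_of_mul_le_mul_left h5 hm0
    calc ∑ b, ∑ s, |l c b s| ≤ ∑ b, (100 / 97) * ∑ i, |∑ s, mean p (P.ar i) s * l c b s| :=
          Finset.sum_le_sum fun b _ => inv_le (fun i s => mean p (P.ar i) s) hY' (fun s => l c b s)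
      _ = (100 / 97) * ∑ i, ∑ b, |∑ s, mean p (P.ar i) s * l c b s| := by
          rw [← Finset.mul_sum, Finset.sum_comm]
      _ ≤ (100 / 97) * ∑ i : Fin 3, 3 * (n : ℝ) * m := by
          refine mul_le_mul_of_nonneg_left (Finset.sum_le_sum fun i _ => h1 i) (by norm_num)
      _ ≤ 10 * n * m := by
          simp only [Finset.sum_const, Finset.card_univ, Fintype.card_fin, nsmul_eq_mul]
          push_cast
          have : (0 : ℝ) ≤ n * m := by positivity
          linarith
  have hfin : ∀ z : ℝ, z ≤ 256 → z * (n ^ 2 * m ^ 2 / W) ≤ 256 * n ^ 2 * m ^ 2 / W := by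
    intro z hz
    have h0 : (0 : ℝ) ≤ n ^ 2 * m ^ 2 / W := by positivity
    calc z * (n ^ 2 * m ^ 2 / W) ≤ 256 * (n ^ 2 * m ^ 2 / W) := mul_le_mul_of_nonneg_right hz h0
      _ = _ := by ring
  -- the gains
  have g3 : ∀ r j, ∑ a : Fin m, |∑ b : Fin m, H a b * ∑ s, p r a s * l (P.ac j) b s| ≤
      256 * n ^ 2 * m ^ 2 / W := by
    intro r j
    refine (gain_row gH (p r) (l (P.ac j)) (fun s => if j = s then 1 else 0) (3 * n * m)
      (13 * m * (n / W)) (hb1 r) (hb3 j)).trans ?_
    refine le_trans (le_of_eq ?_) (hfin 39 (by norm_num))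
    ring
  have g4 : ∀ i c, P.tC c = none → c ≠ P.co →
      ∑ b : Fin m, |∑ a : Fin m, H a b * ∑ s, p (P.ar i) a s * l c b s| ≤
        256 * n ^ 2 * m ^ 2 / W := by
    intro i c hc hco
    refine (gain_col gH (p (P.ar i)) (l c) (fun s => if i = s then 1 else 0) (2 * m * (n / W))
      (10 * n * m) (hb2 i) (hb4 c hc hco)).trans ?_
    refine le_trans (le_of_eq ?_) (hfin 20 (by norm_num))
    ring
  -- the terms
  set K : ℝ := 256 * n ^ 2 * m ^ 2 * Q with hK
  have hK0 : 0 ≤ K := by positivity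
  have hmK : (4 : ℝ) * m ^ 2 * Q ≤ K := by
    rw [hK]
    have h1 : (1 : ℝ) ≤ n ^ 2 := one_le_pow₀ hnR
    have h2 : (0 : ℝ) ≤ m ^ 2 * Q := by positivity
    nlinarith
  have hm2Q : (m : ℝ) ^ 2 ≤ 4 * m ^ 2 * Q := by
    have h2 : (0 : ℝ) ≤ (m : ℝ) ^ 2 := by positivity
    nlinarith
  set t : R → C → ℝ := fun r c => P.w W Q r c * D r c -
    (if P.E r c = none then P.w W Q r c * P.N r c * m ^ 2 else 0) -
    (if r = P.ro ∧ c = P.co then (m : ℝ) ^ 2 else 0) with ht
  have htsum : ∑ r, ∑ c, t r c < 0 := by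
    have h1 : ∑ r : R, ∑ c : C, (if r = P.ro ∧ c = P.co then (m : ℝ) ^ 2 else 0) = (m : ℝ) ^ 2 := by
      simp only [ite_and, Finset.sum_ite_irrel, Finset.sum_ite_eq', Finset.mem_univ, if_true,
        Finset.sum_const_zero]
    have h2 : P.base m W Q = (∑ r : R, ∑ c : C,
        if P.E r c = none then P.w W Q r c * P.N r c * (m : ℝ) ^ 2 else 0) + (m : ℝ) ^ 2 := by
      unfold Pt.base
      rw [add_mul, one_mul, Finset.sum_mul]
      congr 1
      refine Finset.sum_congr rfl fun r _ => ?_
      rw [Finset.sum_mul]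
      refine Finset.sum_congr rfl fun c _ => ?_
      by_cases h : P.E r c = none
      · simp [h]
      · simp [h]
    rw [ht]
    simp only [Finset.sum_sub_distrib]
    rw [h1]
    linarith
  have hlow : ∀ r c, -K ≤ t r c := by
    intro r c
    rw [ht]
    simp only
    cases hE : P.E r c with
    | some x =>
      simp only [reduceCtorEq, if_false, sub_zero]
      have h1 := mul_nonneg (hw0 r c) (hD0 r c)
      split
      · linarith
      · linarith
    | none =>
      have hno : ¬ (r = P.ro ∧ c = P.co) := by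
        rintro ⟨rfl, rfl⟩
        rw [E_obj P ok] at hE
        simp at hE
      rw [if_neg hno]
      simp only [if_true, sub_zero]
      have hA : ∀ a b : ℕ, P.A H r c a b = P.N r c * H a b := by
        intro a b; unfold Pt.A; rw [hE]
      have hE' := hE
      unfold Pt.E at hE'
      cases hc : P.tC c with
      | some j =>
        have hcj := (ok.tC_iff c j).1 hc
        cases hr : P.tR r with
        | some i =>
          have hri := (ok.tR_iff r i).1 hr
          rw [hri, hcj, hEaa] at hE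
          simp at hE
        | none =>
          have hw := w_col_none P (W := W) (Q := Q) r c j hc hr
          have hN : P.N r c = 1 := by unfold Pt.N; rw [hc]
          have h1 := mask_lower gH (fun a b => X r a c b)
          have h2 : D r c = ∑ a : Fin m, ∑ b : Fin m, |1 * H a b - X r a c b| := by
            rw [hD]
            simp only [hA, hN]
          rw [← h2] at h1
          have h3 := g3 r j
          rw [← hcj] at h3
          rw [hw, hN]
          have h4 : (m : ℝ) ^ 2 - 256 * n ^ 2 * m ^ 2 / W ≤ D r c := by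
            refine le_trans ?_ h1
            linarith
          have h5 := mul_le_mul_of_nonneg_left h4 hWQ.le
          have h6 : W * Q * ((m : ℝ) ^ 2 - 256 * n ^ 2 * m ^ 2 / W) = W * Q * m ^ 2 - K := by
            rw [hK]; field_simp
          rw [h6] at h5
          linarith
      | none =>
        cases hr : P.tR r with
        | some i =>
          have hri := (ok.tR_iff r i).1 hr
          have hco : c ≠ P.co := by
            intro hcc
            simp only [hc, hr] at hE'
            rw [hcc, ok.cv_co] at hE'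
            simp at hE'
          have hw := w_row P (W := W) (Q := Q) r c i hc hco hr
          have hN : P.N r c = 1 := by unfold Pt.N; rw [hc, hr]
          have h1 := mask_lower' gH (fun a b => X r a c b)
          have h2 : D r c = ∑ a : Fin m, ∑ b : Fin m, |1 * H a b - X r a c b| := by
            rw [hD]
            simp only [hA, hN]
          rw [← h2] at h1
          have h3 := g4 i c hc hco
          rw [← hri] at h3
          rw [hw, hN]
          have h4 : (m : ℝ) ^ 2 - 256 * n ^ 2 * m ^ 2 / W ≤ D r c := by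
            refine le_trans ?_ h1
            linarith
          have h5 := mul_le_mul_of_nonneg_left h4 hWQ.le
          have h6 : W * Q * ((m : ℝ) ^ 2 - 256 * n ^ 2 * m ^ 2 / W) = W * Q * m ^ 2 - K := by
            rw [hK]; field_simp
          rw [h6] at h5
          linarith
        | none =>
          have hw := w_none P (W := W) hQ r c hc hr
          have hN : P.N r c = 4 := by unfold Pt.N; rw [hc, hr]
          rw [hN]
          have h1 := mul_nonneg (hw0 r c) (hD0 r c)
          have h2 : P.w W Q r c * 4 * (m : ℝ) ^ 2 ≤ 4 * m ^ 2 * Q := by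
            have : (0 : ℝ) ≤ (m : ℝ) ^ 2 := by positivity
            nlinarith
          linarith
  have hupp : ∀ r c, t r c ≤ 256 * n ^ 3 * m ^ 2 * Q := by
    intro r c
    have h1 := single_le t K htsum hlow hK0 r c
    rw [← hn] at h1
    refine h1.trans (le_of_eq ?_)
    rw [hK]; ring
  refine ⟨?_, ?_, g3, g4⟩
  · intro r c x hno hE
    have h1 := hupp r c
    rw [ht] at h1
    simp only [hE, reduceCtorEq, if_false, sub_zero, if_neg hno] at h1
    have h2 : D r c = ∑ a : Fin m, ∑ b : Fin m, |x - ∑ s, p r a s * l c b s| := by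
      have hA : ∀ a b : ℕ, P.A H r c a b = x := by
        intro a b; unfold Pt.A; rw [hE]
      rw [hD]
      simp only [hA, hX]
    rw [← h2]
    exact h1
  · intro r c hE
    have hno : ¬ (r = P.ro ∧ c = P.co) := by
      rintro ⟨rfl, rfl⟩
      rw [E_obj P ok] at hE
      simp at hE
    have h1 := hupp r c
    rw [ht] at h1
    simp only [hE, if_true, sub_zero, if_neg hno] at h1
    have h2 : D r c = ∑ a : Fin m, ∑ b : Fin m, |P.N r c * H a b - ∑ s, p r a s * l c b s| := by
      have hA : ∀ a b : ℕ, P.A H r c a b = P.N r c * H a b := by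
        intro a b; unfold Pt.A; rw [hE]
      rw [hD]
      simp only [hA, hX]
    rw [← h2]
    calc P.w W Q r c * (D r c - P.N r c * m ^ 2) = P.w W Q r c * D r c -
        P.w W Q r c * P.N r c * m ^ 2 := by ring
      _ ≤ _ := h1

end Pool.Agent.R777.LRNOB1

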