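import Pool.Agent.R777.Conj

/-! A homeomorphism with slowly oscillating derivatives cannot be corrected by an equivariant
map to a `C^k` diffeomorphism. -/

set_option linter.unusedVariables false
set_option linter.unusedSectionVars false
set_option linter.unusedSimpArgs false

open Filter Topology Asymptotics Set
open scoped ContDiff

namespace Pool.Agent.R777

section poly

variable {F : Type} [NormedAddCommGroup F] [NormedSpace ℝ F]

lemma poly_coeff_zero : ∀ (k : ℕ) (a : ℕ → F),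
    (fun r : ℝ => ∑ i ∈ Finset.range (k + 1), r ^ i • a i) =O[𝓝[>] (0 : ℝ)] (fun r => r ^ k) →
    ∀ i < k, a i = 0 := by
  intro k
  induction k with
  | zero => intro a _ i hi; omega
  | succ k ih =>
    intro a h
    have h0 : a 0 = 0 := by
      have h1 : Tendsto (fun r : ℝ => ∑ i ∈ Finset.range (k + 1 + 1), r ^ i • a i)
          (𝓝[>] (0 : ℝ)) (𝓝 (∑ i ∈ Finset.range (k + 1 + 1), (0 : ℝ) ^ i • a i)) := by
        have : Continuous (fun r : ℝ => ∑ i ∈ Finset.range (k + 1 + 1), r ^ i • a i) := by fun_prop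
        exact (this.tendsto 0).mono_left nhdsWithin_le_nhds
      have h2 : Tendsto (fun r : ℝ => r ^ (k + 1)) (𝓝[>] (0 : ℝ)) (𝓝 0) := by
        have : Tendsto (fun r : ℝ => r ^ (k + 1)) (𝓝 (0 : ℝ)) (𝓝 (0 ^ (k + 1))) :=
          (continuous_pow (k + 1)).tendsto 0
        rw [zero_pow (by omega)] at this
        exact this.mono_left nhdsWithin_le_nhds
      have h3 := h.trans_tendsto h2
      have h4 := tendsto_nhds_unique h1 h3
      rw [Finset.sum_range_succ'] at h4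
      simpa using h4
    have h5 : (fun r : ℝ => ∑ i ∈ Finset.range (k + 1), r ^ i • a (i + 1))
        =O[𝓝[>] (0 : ℝ)] (fun r => r ^ k) := by
      obtain ⟨C, hC⟩ := h.bound
      refine IsBigO.of_bound C ?_
      filter_upwards [hC, self_mem_nhdsWithin] with r hr hr0
      have hr0' : (0 : ℝ) < r := hr0
      rw [Finset.sum_range_succ', h0, smul_zero, add_zero] at hr
      have h6 : ∑ i ∈ Finset.range (k + 1), r ^ (i + 1) • a (i + 1) =
          r • ∑ i ∈ Finset.range (k + 1), r ^ i • a (i + 1) := by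
        rw [Finset.smul_sum]
        refine Finset.sum_congr rfl fun i _ => ?_
        rw [smul_smul, pow_succ, mul_comm]
      rw [h6, norm_smul, pow_succ, norm_mul] at hr
      have h7 : 0 < ‖r‖ := norm_pos_iff.2 hr0'.ne'
      have h8 : ‖r‖ * ‖∑ i ∈ Finset.range (k + 1), r ^ i • a (i + 1)‖ ≤ ‖r‖ * (C * ‖r ^ k‖) := by
        linarith
      exact le_of_mul_le_mul_left h8 h7
    intro i hi
    rcases i with _ | i
    · exact h0
    · exact ih (fun i => a (i + 1)) h5 i (by omega)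

/-- If a `C^k` function of one variable is `O(r^k)` then `f(r) / r^k` converges at `0+`. -/
lemma exists_limit_of_contDiffAt {k : ℕ} {f : ℝ → F} (hf : ContDiffAt ℝ k f 0)
    (hO : f =O[𝓝[>] (0 : ℝ)] (fun r => r ^ k)) :
    ∃ L : F, (fun r => f r - r ^ k • L) =o[𝓝[>] (0 : ℝ)] (fun r => r ^ k) := by
  obtain ⟨u, hu, hfu⟩ := hf.contDiffOn le_rfl (by simp)
  obtain ⟨δ, hδ, hball⟩ := Metric.mem_nhds_iff.1 hu
  have hcd : ContDiffOn ℝ k f (Metric.ball 0 δ) := hfu.mono hball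
  have ht := taylor_isLittleO (convex_ball (0 : ℝ) δ) (Metric.mem_ball_self hδ) hcd
  have hle : 𝓝[>] (0 : ℝ) ≤ 𝓝[Metric.ball 0 δ] (0 : ℝ) := by
    rw [nhdsWithin_eq_nhds.2 (Metric.ball_mem_nhds _ hδ)]
    exact nhdsWithin_le_nhds
  have ht' := ht.mono hle
  set a : ℕ → F := fun i => ((i.factorial : ℝ)⁻¹) •
    iteratedDerivWithin i f (Metric.ball 0 δ) 0 with ha
  have hT : ∀ r : ℝ, taylorWithinEval f k (Metric.ball 0 δ) 0 r =
      ∑ i ∈ Finset.range (k + 1), r ^ i • a i := by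
    intro r
    rw [taylor_within_apply]
    refine Finset.sum_congr rfl fun i _ => ?_
    rw [ha]
    simp only [sub_zero, smul_smul]
    rw [mul_comm]
  simp only [hT, sub_zero] at ht'
  have hO2 : (fun r : ℝ => ∑ i ∈ Finset.range (k + 1), r ^ i • a i)
      =O[𝓝[>] (0 : ℝ)] (fun r => r ^ k) := by
    have := hO.sub ht'.isBigO
    refine this.congr_left fun r => ?_
    abel
  have hz := poly_coeff_zero k a hO2
  refine ⟨a k, ?_⟩
  refine ht'.congr_left fun r => ?_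
  rw [Finset.sum_range_succ, Finset.sum_eq_zero, zero_add]
  intro i hi
  rw [hz i (Finset.mem_range.1 hi), smul_zero]

end poly

section osc

/-- The slowly oscillating function has no limit along rays. -/
lemma cos_log_no_limit {c : ℝ} (hc : 0 < c) {L : ℝ} :
    ¬ Tendsto (fun r : ℝ => Real.cos (Real.log (2 - Real.log ((r * c) ^ 2)))) (𝓝[>] (0 : ℝ))
      (𝓝 L) := by
  intro h
  -- the points where the value is `cos (t)`
  have key : ∀ t₀ : ℝ, Tendsto (fun n : ℕ => Real.exp ((2 - Real.exp (t₀ + n * (2 * Real.pi))) / 2)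
      / c) atTop (𝓝[>] (0 : ℝ)) := by
    intro t₀
    refine tendsto_nhdsWithin_iff.2 ⟨?_, Eventually.of_forall fun n => by
      simp only [mem_Ioi]; positivity⟩
    have h1 : Tendsto (fun n : ℕ => t₀ + n * (2 * Real.pi)) atTop atTop := by
      refine tendsto_atTop_add_const_left _ _ ?_
      exact tendsto_natCast_atTop_atTop.atTop_mul_const (by positivity)
    have h2 := Real.tendsto_exp_atTop.comp h1
    have h3 : Tendsto (fun n : ℕ => (2 - Real.exp (t₀ + n * (2 * Real.pi))) / 2) atTop atBot := by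
      have h4 := tendsto_atBot_add_const_left atTop (2 : ℝ) (tendsto_neg_atTop_atBot.comp h2)
      have h5 := h4.atBot_div_const (show (0 : ℝ) < 2 by norm_num)
      refine h5.congr fun n => ?_
      simp [Function.comp, sub_eq_add_neg]
    have h6 := (Real.tendsto_exp_atBot.comp h3).div_const c
    simpa [Function.comp] using h6
  have hval : ∀ t₀ : ℝ, ∀ n : ℕ, Real.cos (Real.log (2 - Real.log
      ((Real.exp ((2 - Real.exp (t₀ + n * (2 * Real.pi))) / 2) / c * c) ^ 2))) = Real.cos t₀ := by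
    intro t₀ n
    rw [div_mul_cancel₀ _ hc.ne', ← Real.exp_nat_mul, Real.log_exp]
    have e : (2 : ℝ) - ((2 : ℕ) : ℝ) * ((2 - Real.exp (t₀ + n * (2 * Real.pi))) / 2) =
        Real.exp (t₀ + n * (2 * Real.pi)) := by
      push_cast
      ring
    rw [e, Real.log_exp, Real.cos_add_nat_mul_two_pi]
  have h1 := h.comp (key 0)
  have h2 := h.comp (key Real.pi)
  have h3 : Tendsto (fun _ : ℕ => (1 : ℝ)) atTop (𝓝 L) := by
    refine h1.congr fun n => ?_
    simp only [Function.comp]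
    rw [hval, Real.cos_zero]
  have h4 : Tendsto (fun _ : ℕ => (-1 : ℝ)) atTop (𝓝 L) := by
    refine h2.congr fun n => ?_
    simp only [Function.comp]
    rw [hval, Real.cos_pi]
  have h5 := tendsto_nhds_unique h3 tendsto_const_nhds
  have h6 := tendsto_nhds_unique h4 tendsto_const_nhds
  rw [h5] at h6
  norm_num at h6

end osc

section main

variable {E : Type} [NormedAddCommGroup E] [InnerProductSpace ℝ E] [FiniteDimensional ℝ E]
  [Nontrivial E]

/-- The abstract obstruction to linearizability. -/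
theorem no_linearization (P : E →L[ℝ] E) (ℓ : E →L[ℝ] ℝ) (j : ℕ) {ε : ℝ} (hε : 0 < ε)
    (hlip : ∀ x y, ‖ε • V0 P ℓ j x - ε • V0 P ℓ j y‖ ≤ 1 / 2 * ‖x - y‖)
    (e₁ τ₀ : E) (hPe : P e₁ = e₁) (hPτ : P τ₀ = 0) (hle : ℓ e₁ = 0)
    (hlτ : ∀ r : ℝ, (ℓ (r • τ₀)) ^ j = r ^ j) (he : e₁ ≠ 0)
    (S : ℝ → E →L[ℝ] E) (π₁ π₂ π₃ : E →L[ℝ] E)
    (hS : ∀ θ, S θ = Real.exp θ • π₁ + Real.exp (-θ) • π₂ + π₃)
    (hSadd : ∀ a b x, S (a + b) x = S a (S b x))
    (hSe : ∀ θ, S θ e₁ = Real.exp θ • e₁) (hSτ : ∀ θ, S θ τ₀ = τ₀)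
    (φ φ' : E → E) (hφ0 : φ 0 = 0) (hφ : ContDiffAt ℝ ((j + 1 : ℕ) : WithTop ℕ∞) φ 0)
    (hφ' : ContDiffAt ℝ ((j + 1 : ℕ) : WithTop ℕ∞) φ' 0)
    (hinv : ∀ᶠ x in 𝓝 (0 : E), φ' (φ x) = x)
    {δ : ℝ} (hδ : 0 < δ)
    (W : Set E) (hW : W ∈ 𝓝 (0 : E))
    (hequi : ∀ θ, 0 ≤ θ → θ ≤ δ → ∀ z ∈ W,
      φ (Phi hlip (S (-θ) z)) = S (-θ) (φ (Phi hlip z))) : False := by
  set V : E → E := fun z => ε • V0 P ℓ j z with hV
  have hV0 : V 0 = 0 := by simp [hV, V0_zero]
  have hΦ0 : Phi hlip 0 = 0 := Phi_zero (V := V) hlip hV0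
  -- `φ` is `C^k` near the origin
  have hφev : ∀ᶠ x in 𝓝 (0 : E), ContDiffAt ℝ ((j + 1 : ℕ) : WithTop ℕ∞) φ x :=
    hφ.eventually (by simp)
  have hΦev : ∀ᶠ z in 𝓝 (0 : E), ContDiffAt ℝ ((j + 1 : ℕ) : WithTop ℕ∞) φ (Phi hlip z) := by
    have h1 : Tendsto (Phi hlip) (𝓝 (0 : E)) (𝓝 0) := by
      have := (Phi hlip).continuous.tendsto 0
      rwa [hΦ0] at this
    exact h1.eventually hφev
  -- choose a ball in which everything is fine
  obtain ⟨ρ, hρ, hball⟩ : ∃ ρ > 0, ∀ z : E, ‖z‖ < ρ → z ∈ W ∧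
      ContDiffAt ℝ ((j + 1 : ℕ) : WithTop ℕ∞) φ (Phi hlip z) := by
    obtain ⟨ρ, hρ, h⟩ := Metric.mem_nhds_iff.1 (Filter.inter_mem hW hΦev)
    exact ⟨ρ, hρ, fun z hz => h (by simpa using hz)⟩
  set M := ‖e₁‖ + ‖τ₀‖ + 1 with hM
  have hMpos : 0 < M := by positivity
  set s₀ := ρ / (2 * M) with hs₀
  have hs₀pos : 0 < s₀ := by positivity
  have hin : ∀ b r : ℝ, 0 ≤ b → b ≤ s₀ → |r| ≤ s₀ → ‖b • e₁ + r • τ₀‖ < ρ := by
    intro b r hb hb' hr
    calc ‖b • e₁ + r • τ₀‖ ≤ ‖b • e₁‖ + ‖r • τ₀‖ := norm_add_le _ _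
      _ = b * ‖e₁‖ + |r| * ‖τ₀‖ := by
        rw [norm_smul, norm_smul, Real.norm_of_nonneg hb, Real.norm_eq_abs]
      _ ≤ s₀ * ‖e₁‖ + s₀ * ‖τ₀‖ := by
        have h1 := norm_nonneg e₁
        have h2 := norm_nonneg τ₀
        nlinarith
      _ < ρ := by
        have h3 : s₀ * (2 * M) = ρ := by
          rw [hs₀]; field_simp
        have h4 : s₀ * (‖e₁‖ + ‖τ₀‖) < s₀ * (2 * M) := by
          refine mul_lt_mul_of_pos_left ?_ hs₀pos
          rw [hM]
          have h1 := norm_nonneg e₁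
          have h2 := norm_nonneg τ₀
          linarith
        rw [h3] at h4
        linarith
  have hSz : ∀ θ b r : ℝ, S θ (b • e₁ + r • τ₀) = (Real.exp θ * b) • e₁ + r • τ₀ := by
    intro θ b r
    rw [map_add, map_smul, map_smul, hSe, hSτ, smul_smul, mul_comm]
  -- iterate the equivariance
  have hit : ∀ (n : ℕ) (η : ℝ), 0 ≤ η → η ≤ δ → ∀ r : ℝ, |r| ≤ s₀ →
      φ (Phi hlip ((Real.exp (-(n * η)) * s₀) • e₁ + r • τ₀)) =
        S (-(n * η)) (φ (Phi hlip (s₀ • e₁ + r • τ₀))) := by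
    intro n η hη hη' r hr
    induction n with
    | zero =>
      have h1 : S 0 (φ (Phi hlip (s₀ • e₁ + r • τ₀))) = φ (Phi hlip (s₀ • e₁ + r • τ₀)) := by
        have h2 := hequi 0 le_rfl hδ.le (s₀ • e₁ + r • τ₀)
          (hball _ (hin _ _ hs₀pos.le le_rfl hr)).1
        rw [neg_zero, hSz, Real.exp_zero, one_mul] at h2
        exact h2.symm
      simp only [Nat.cast_zero, zero_mul, neg_zero, Real.exp_zero, one_mul]
      exact h1.symm
    | succ n ih =>
      have hb : 0 ≤ Real.exp (-(n * η)) * s₀ := by positivity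
      have hb' : Real.exp (-(n * η)) * s₀ ≤ s₀ := by
        have : Real.exp (-(n * η)) ≤ 1 := by
          rw [Real.exp_le_one_iff]
          have : 0 ≤ (n : ℝ) * η := by positivity
          linarith
        nlinarith
      have h2 := hequi η hη hη' ((Real.exp (-(n * η)) * s₀) • e₁ + r • τ₀)
          (hball _ (hin _ _ hb hb' hr)).1
      rw [hSz, ih, ← hSadd, ← mul_assoc, ← Real.exp_add] at h2
      have e1 : -η + -(n * η) = -((n + 1 : ℕ) * η) := by push_cast; ring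
      rw [e1] at h2
      exact h2
  have hall : ∀ θ : ℝ, 0 ≤ θ → ∀ r : ℝ, |r| ≤ s₀ →
      φ (Phi hlip ((Real.exp (-θ) * s₀) • e₁ + r • τ₀)) =
        S (-θ) (φ (Phi hlip (s₀ • e₁ + r • τ₀))) := by
    intro θ hθ r hr
    obtain ⟨n, hn⟩ := exists_nat_gt (θ / δ)
    have hn0 : (0 : ℝ) < n := lt_of_le_of_lt (by positivity) hn
    have h1 : θ / n ≤ δ := by
      rw [div_le_iff₀ hn0]
      rw [div_lt_iff₀ hδ] at hn
      linarith
    have h2 := hit n (θ / n) (by positivity) h1 r hr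
    rwa [mul_div_cancel₀ _ hn0.ne'] at h2
  -- the expanding component vanishes
  set y : ℝ → E := fun r => φ (Phi hlip (s₀ • e₁ + r • τ₀)) with hy
  have hπ₂ : ∀ r : ℝ, |r| ≤ s₀ → π₂ (y r) = 0 := by
    intro r hr
    have h1 : Tendsto (fun θ : ℝ => φ (Phi hlip ((Real.exp (-θ) * s₀) • e₁ + r • τ₀))) atTop
        (𝓝 (φ (Phi hlip (r • τ₀)))) := by
      have h2 : Tendsto (fun θ : ℝ => (Real.exp (-θ) * s₀) • e₁ + r • τ₀) atTop
          (𝓝 (r • τ₀)) := by
        have h3 : Tendsto (fun θ : ℝ => Real.exp (-θ)) atTop (𝓝 0) :=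
          Real.tendsto_exp_neg_atTop_nhds_zero
        have h4 := ((h3.mul_const s₀).smul_const e₁).add_const (r • τ₀)
        simpa using h4
      have h5 : ContinuousAt (fun z => φ (Phi hlip z)) (r • τ₀) := by
        have h6 := (hball (r • τ₀) (by simpa using hin 0 r le_rfl hs₀pos.le hr)).2
        exact ContinuousAt.comp (g := φ) h6.continuousAt (Phi hlip).continuous.continuousAt
      exact h5.tendsto.comp h2
    have h7 : Tendsto (fun θ : ℝ => Real.exp (-θ) • (φ (Phi hlip ((Real.exp (-θ) * s₀) • e₁ +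
        r • τ₀)) - Real.exp (-θ) • π₁ (y r) - π₃ (y r))) atTop (𝓝 0) := by
      have h3 : Tendsto (fun θ : ℝ => Real.exp (-θ)) atTop (𝓝 0) :=
        Real.tendsto_exp_neg_atTop_nhds_zero
      have h8 := h3.smul ((h1.sub (h3.smul_const (π₁ (y r)))).sub_const (π₃ (y r)))
      rwa [zero_smul] at h8
    have h9 : Tendsto (fun _ : ℝ => π₂ (y r)) atTop (𝓝 0) := by
      refine h7.congr' ?_
      filter_upwards [eventually_ge_atTop 0] with θ hθ
      rw [hall θ hθ r hr, hS]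
      simp only [neg_neg]
      have : (Real.exp (-θ) • π₁ + Real.exp θ • π₂ + π₃) (y r) - Real.exp (-θ) • π₁ (y r)
          - π₃ (y r) = Real.exp θ • π₂ (y r) := by
        simp only [add_apply, smul_apply]
        abel
      simp only [hy] at this ⊢
      rw [this, smul_smul, ← Real.exp_add]
      simp
    exact tendsto_nhds_unique tendsto_const_nhds h9
  -- the comparison function
  set F : ℝ → E := fun r => (r / s₀) • π₁ (y r) + π₃ (y r) - φ (r • e₁ + r • τ₀) with hF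
  have hs₀e : s₀ • e₁ ≠ 0 := smul_ne_zero hs₀pos.ne' he
  have hFC : ContDiffAt ℝ ((j + 1 : ℕ) : WithTop ℕ∞) F 0 := by
    have h1 : ContDiffAt ℝ ((j + 1 : ℕ) : WithTop ℕ∞) (fun r : ℝ => s₀ • e₁ + r • τ₀) 0 :=
      contDiffAt_const.add (contDiffAt_id.smul contDiffAt_const)
    have h2 : ContDiffAt ℝ ((j + 1 : ℕ) : WithTop ℕ∞) (Phi hlip) (s₀ • e₁ + (0 : ℝ) • τ₀) := by
      rw [zero_smul, add_zero]
      have h3 : ContDiffAt ℝ ∞ (fun z => z + ε • V0 P ℓ j z) (s₀ • e₁) :=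
        contDiffAt_id.add (contDiffAt_const.smul (V0_contDiffAt P ℓ j hs₀e))
      exact h3.of_le (show ((j + 1 : ℕ) : WithTop ℕ∞) ≤ ∞ by exact_mod_cast le_top)
    have h4 : ContDiffAt ℝ ((j + 1 : ℕ) : WithTop ℕ∞) φ
        (Phi hlip (s₀ • e₁ + (0 : ℝ) • τ₀)) :=
      (hball _ (hin s₀ 0 hs₀pos.le le_rfl (by simp [hs₀pos.le]))).2
    have h5 : ContDiffAt ℝ ((j + 1 : ℕ) : WithTop ℕ∞) y 0 :=
      ContDiffAt.comp (g := φ) (0 : ℝ) h4 (ContDiffAt.comp (0 : ℝ) h2 h1)
    have h6 : ContDiffAt ℝ ((j + 1 : ℕ) : WithTop ℕ∞) (fun r : ℝ => r • e₁ + r • τ₀) 0 :=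
      (contDiffAt_id.smul contDiffAt_const).add (contDiffAt_id.smul contDiffAt_const)
    have h7 : ContDiffAt ℝ ((j + 1 : ℕ) : WithTop ℕ∞) (fun r : ℝ => φ (r • e₁ + r • τ₀)) 0 := by
      refine ContDiffAt.comp (g := φ) (0 : ℝ) ?_ h6
      simpa using hφ
    have h8 : ContDiffAt ℝ ((j + 1 : ℕ) : WithTop ℕ∞) (fun r : ℝ => r / s₀) 0 :=
      contDiffAt_id.div_const s₀
    exact ((h8.smul (π₁.contDiff.contDiffAt.comp (0 : ℝ) h5)).add
      (π₃.contDiff.contDiffAt.comp (0 : ℝ) h5)).sub h7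
  -- near the origin `F` is the difference of two values of `φ`
  have hFeq : ∀ᶠ r in 𝓝[>] (0 : ℝ), F r = φ (Phi hlip (r • e₁ + r • τ₀)) -
      φ (r • e₁ + r • τ₀) := by
    have h1 : ∀ᶠ r in 𝓝[>] (0 : ℝ), r ≤ s₀ :=
      nhdsWithin_le_nhds (Iic_mem_nhds hs₀pos)
    filter_upwards [h1, self_mem_nhdsWithin] with r hr hr0
    have hr0' : (0 : ℝ) < r := hr0
    have hθ : 0 ≤ Real.log (s₀ / r) := Real.log_nonneg (by rw [le_div_iff₀ hr0']; linarith)
    have h2 := hall (Real.log (s₀ / r)) hθ r (by rw [abs_of_pos hr0']; exact hr)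
    have h3 : Real.exp (-Real.log (s₀ / r)) = r / s₀ := by
      rw [Real.exp_neg, Real.exp_log (by positivity), inv_div]
    rw [hS, neg_neg, h3, div_mul_cancel₀ _ hs₀pos.ne'] at h2
    simp only [hF]
    rw [h2]
    have h4 := hπ₂ r (by rw [abs_of_pos hr0']; exact hr)
    simp only [hy] at h4 ⊢
    simp only [add_apply, smul_apply, h4, smul_zero, add_zero]
  -- the value of the perturbation along the ray
  set c := ‖e₁ + τ₀‖ with hc
  have hcpos : 0 < c := by
    rw [hc, norm_pos_iff]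
    intro h
    have h1 : P (e₁ + τ₀) = 0 := by rw [h, map_zero]
    rw [map_add, hPe, hPτ, add_zero] at h1
    exact he h1
  have hray : Tendsto (fun r : ℝ => r • e₁ + r • τ₀) (𝓝[>] (0 : ℝ)) (𝓝 0) := by
    have : Continuous (fun r : ℝ => r • e₁ + r • τ₀) := by fun_prop
    have h := (this.tendsto 0).mono_left (nhdsWithin_le_nhds (s := Ioi (0 : ℝ)))
    simpa using h
  have hVray : ∀ᶠ r in 𝓝[>] (0 : ℝ), V (r • e₁ + r • τ₀) =
      (ε * Real.cos (Real.log (2 - Real.log ((r * c) ^ 2)))) • r ^ (j + 1) • e₁ := by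
    filter_upwards [hray.eventually (bump_eventually_one (E := E)), self_mem_nhdsWithin]
      with r hr hr0
    have hr0' : (0 : ℝ) < r := hr0
    have h1 : ‖r • e₁ + r • τ₀‖ = r * c := by
      rw [← smul_add, norm_smul, Real.norm_of_nonneg hr0'.le]
    have h2 : (ℓ (r • e₁ + r • τ₀)) ^ j = r ^ j := by
      rw [map_add, map_smul, hle, smul_zero, zero_add, hlτ]
    have h3 : P (r • e₁ + r • τ₀) = r • e₁ := by
      rw [map_add, map_smul, map_smul, hPe, hPτ, smul_zero, add_zero]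
    simp only [hV, V0, hr, one_mul, h2, h3, lam, aa, h1, smul_smul]
    congr 1
    ring
  -- strict differentiability of `φ`
  set A : E →L[ℝ] E := fderiv ℝ φ 0 with hA
  have hstr : HasStrictFDerivAt φ A 0 := hφ.hasStrictFDerivAt (by simp)
  have hpair : Tendsto (fun r : ℝ => (Phi hlip (r • e₁ + r • τ₀), r • e₁ + r • τ₀))
      (𝓝[>] (0 : ℝ)) (𝓝 ((0 : E), (0 : E))) := by
    refine Tendsto.prodMk_nhds ?_ hray
    have := (Phi hlip).continuous.tendsto 0
    rw [hΦ0] at this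
    exact this.comp hray
  have hO1 : (fun r : ℝ => V (r • e₁ + r • τ₀)) =O[𝓝[>] (0 : ℝ)] (fun r => r ^ (j + 1)) := by
    refine IsBigO.of_bound (ε * ‖e₁‖) ?_
    filter_upwards [hVray] with r hr
    rw [hr, norm_smul, norm_smul, norm_mul, Real.norm_of_nonneg hε.le]
    have h1 : ‖Real.cos (Real.log (2 - Real.log ((r * c) ^ 2)))‖ ≤ 1 :=
      Real.abs_cos_le_one _
    have h2 := norm_nonneg (r ^ (j + 1))
    have h3 := norm_nonneg e₁
    calc ε * ‖Real.cos (Real.log (2 - Real.log ((r * c) ^ 2)))‖ * (‖r ^ (j + 1)‖ * ‖e₁‖)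
        ≤ ε * 1 * (‖r ^ (j + 1)‖ * ‖e₁‖) := by gcongr
      _ = ε * ‖e₁‖ * ‖r ^ (j + 1)‖ := by ring
  have hFo : (fun r : ℝ => F r - A (V (r • e₁ + r • τ₀))) =o[𝓝[>] (0 : ℝ)]
      (fun r => r ^ (j + 1)) := by
    have h1 := hstr.isLittleO.comp_tendsto hpair
    have h2 : (fun r : ℝ => φ (Phi hlip (r • e₁ + r • τ₀)) - φ (r • e₁ + r • τ₀) -
        A (V (r • e₁ + r • τ₀))) =o[𝓝[>] (0 : ℝ)] (fun r => V (r • e₁ + r • τ₀)) := by
      refine h1.congr ?_ ?_
      · intro r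
        simp only [Function.comp]
        congr 2
        rw [Phi_apply]
        abel
      · intro r
        simp only [Function.comp]
        rw [Phi_apply]
        abel
    refine (h2.trans_isBigO hO1).congr' ?_ EventuallyEq.rfl
    filter_upwards [hFeq] with r hr
    rw [hr]
  have hFO : F =O[𝓝[>] (0 : ℝ)] (fun r => r ^ (j + 1)) := by
    have h1 : (fun r : ℝ => A (V (r • e₁ + r • τ₀))) =O[𝓝[>] (0 : ℝ)] (fun r => r ^ (j + 1)) :=
      (A.isBigO_comp _ _).trans hO1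
    have h2 := hFo.isBigO.add h1
    refine h2.congr_left fun r => ?_
    abel
  obtain ⟨L, hL⟩ := exists_limit_of_contDiffAt hFC hFO
  -- so the oscillating factor converges
  have hAe : A e₁ ≠ 0 := by
    intro h
    have h1 : HasFDerivAt (fun x => φ' (φ x)) ((fderiv ℝ φ' (φ 0)).comp A) 0 := by
      have h2 : HasFDerivAt φ' (fderiv ℝ φ' (φ 0)) (φ 0) := by
        rw [hφ0]
        exact (hφ'.differentiableAt (by simp)).hasFDerivAt
      exact h2.comp (0 : E) hstr.hasFDerivAt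
    have h3 : HasFDerivAt (fun x : E => x) ((fderiv ℝ φ' (φ 0)).comp A) 0 :=
      h1.congr_of_eventuallyEq (hinv.mono fun x hx => hx.symm)
    have h4 := h3.unique (hasFDerivAt_id (0 : E))
    have h5 := congrArg (fun B : E →L[ℝ] E => B e₁) h4
    simp [h] at h5
    exact he h5.symm
  have hdiff : (fun r : ℝ => r ^ (j + 1) • (L - (ε * Real.cos (Real.log (2 - Real.log
      ((r * c) ^ 2)))) • A e₁)) =o[𝓝[>] (0 : ℝ)] (fun r => r ^ (j + 1)) := by
    have h1 := hFo.sub hL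
    refine h1.congr' ?_ EventuallyEq.rfl
    filter_upwards [hVray] with r hr
    rw [hr, map_smul, map_smul, smul_sub, smul_comm]
    abel
  have hlim : Tendsto (fun r : ℝ => L - (ε * Real.cos (Real.log (2 - Real.log
      ((r * c) ^ 2)))) • A e₁) (𝓝[>] (0 : ℝ)) (𝓝 0) := by
    rw [← isLittleO_one_iff ℝ]
    rw [isLittleO_iff] at hdiff ⊢
    intro C hC
    filter_upwards [hdiff hC, self_mem_nhdsWithin] with r hr hr0
    have hr0' : (0 : ℝ) < r := hr0
    rw [norm_smul] at hr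
    rw [norm_one, mul_one]
    have h1 : 0 < ‖r ^ (j + 1)‖ := norm_pos_iff.2 (pow_ne_zero _ hr0'.ne')
    rw [mul_comm C] at hr
    exact le_of_mul_le_mul_left hr h1
  -- take the inner product with `A e₁`
  have hlim2 : Tendsto (fun r : ℝ => (ε * Real.cos (Real.log (2 - Real.log
      ((r * c) ^ 2)))) • A e₁) (𝓝[>] (0 : ℝ)) (𝓝 L) := by
    have := (tendsto_const_nhds (x := L)).sub hlim
    simpa using this
  have hlim3 := (innerSL ℝ (A e₁)).continuous.tendsto L |>.comp hlim2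
  have hlim4 := hlim3.div_const (ε * inner ℝ (A e₁) (A e₁))
  refine cos_log_no_limit hcpos (hlim4.congr fun r => ?_)
  have h1 : inner ℝ (A e₁) (A e₁) ≠ (0 : ℝ) := by
    rw [real_inner_self_eq_norm_sq]
    exact pow_ne_zero 2 (norm_ne_zero_iff.2 hAe)
  simp only [Function.comp, map_smul, smul_eq_mul]
  rw [innerSL_apply_apply]
  field_simp

end main

end Pool.Agent.R777
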