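import Pool.Agent.R777.Sym

/-! A bounded function which is smooth off the origin, oscillates infinitely often near the origin,
but whose derivatives of order `j ≥ 1` are `o(‖z‖^(-j))`. -/

set_option linter.unusedVariables false
set_option linter.unusedSectionVars false
set_option linter.unusedSimpArgs false

open Filter Topology Asymptotics Set

namespace Pool.Agent.R777

section general

variable {E : Type} [NormedAddCommGroup E] [NormedSpace ℝ E]

lemma norm_zpow_pos {s : ℤ} : ∀ᶠ z in 𝓝[≠] (0 : E), 0 < ‖z‖ ^ s := by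
  filter_upwards [self_mem_nhdsWithin] with z hz
  exact zpow_pos (norm_pos_iff.2 hz) _

lemma Cls.inv : ∀ {k : ℕ} {s : ℤ} {q : E → ℝ}, Cls false k s q →
    (fun z : E => ‖z‖ ^ s) =O[𝓝[≠] (0 : E)] q → Cls false k (-s) (fun z => (q z)⁻¹) := by
  intro k
  induction k with
  | zero =>
    intro s q hq hl
    have hne : ∀ᶠ z in 𝓝[≠] (0 : E), q z ≠ 0 := by
      obtain ⟨C, hC⟩ := hl.bound
      filter_upwards [hC, norm_zpow_pos (s := s)] with z h1 h2 h3
      rw [h3, norm_zero, mul_zero, Real.norm_of_nonneg h2.le] at h1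
      linarith
    refine ⟨?_, ?_⟩
    · filter_upwards [hq.1, hne] with z h1 h2
      exact h1.inv₀ h2
    · simp only [Asy, Bool.false_eq_true, if_false]
      have h1 := hl.inv_rev (by
        filter_upwards [norm_zpow_pos (s := s)] with z h1 h2
        exact absurd h2 h1.ne')
      refine h1.congr' EventuallyEq.rfl ?_
      filter_upwards with z
      rw [zpow_neg]
  | succ k ih =>
    intro s q hq hl
    have hne : ∀ᶠ z in 𝓝[≠] (0 : E), q z ≠ 0 := by
      obtain ⟨C, hC⟩ := hl.bound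
      filter_upwards [hC, norm_zpow_pos (s := s)] with z h1 h2 h3
      rw [h3, norm_zero, mul_zero, Real.norm_of_nonneg h2.le] at h1
      linarith
    have h0 := ih hq.down hl
    have hd : ∀ᶠ z in 𝓝[≠] (0 : E), HasFDerivAt (fun z => (q z)⁻¹)
        (-((q z)⁻¹ * (q z)⁻¹) • fderiv ℝ q z) z := by
      filter_upwards [hq.1, hne] with z h1 h2
      refine ((hasDerivAt_inv h2).comp_hasFDerivAt z h1.hasFDerivAt).congr_fderiv ?_
      congr 1
      field_simp
    refine ⟨hd.mono fun z hz => hz.differentiableAt, h0.asy, ?_⟩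
    have h1 := Cls.smul (Cls.mul h0 h0).neg hq.2.2
    simp only [Bool.or_false] at h1
    rw [show -s + -s + (s - 1) = -s - 1 by ring] at h1
    refine h1.congr ?_
    filter_upwards [hd] with z hz
    rw [hz.fderiv]

/-- reciprocals of functions of logarithmic growth are slowly varying and tend to zero -/
lemma Cls.inv_log : ∀ {k : ℕ} {a : E → ℝ}, Cls false k (-1) (fderiv ℝ a) →
    (∀ᶠ z in 𝓝[≠] (0 : E), DifferentiableAt ℝ a z) → Tendsto a (𝓝[≠] (0 : E)) atTop →
    Cls true (k + 1) 0 (fun z => (a z)⁻¹) := by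
  intro k
  induction k with
  | zero =>
    intro a ha hd ht
    have hne : ∀ᶠ z in 𝓝[≠] (0 : E), a z ≠ 0 := ht.eventually_ne_atTop 0
    have hd' : ∀ᶠ z in 𝓝[≠] (0 : E), HasFDerivAt (fun z => (a z)⁻¹)
        (-((a z)⁻¹ * (a z)⁻¹) • fderiv ℝ a z) z := by
      filter_upwards [hd, hne] with z h1 h2
      refine ((hasDerivAt_inv h2).comp_hasFDerivAt z h1.hasFDerivAt).congr_fderiv ?_
      congr 1
      field_simp
    have h0 : Asy true (𝓝[≠] (0 : E)) (fun z => (a z)⁻¹) (fun z => ‖z‖ ^ (0 : ℤ)) := by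
      simp only [Asy, if_true, zpow_zero]
      rw [isLittleO_one_iff]
      exact tendsto_inv_atTop_zero.comp ht
    have h00 : Cls true 0 0 (fun z => (a z)⁻¹) :=
      ⟨hd'.mono fun z hz => hz.continuousAt, h0⟩
    refine ⟨hd'.mono fun z hz => hz.differentiableAt, h0, ?_⟩
    have h1 := Cls.smul (Cls.mul h00 h00).neg ha
    simp only [Bool.or_false, Bool.or_true] at h1
    rw [show (0 : ℤ) + 0 + (-1) = 0 - 1 by ring] at h1
    refine h1.congr ?_
    filter_upwards [hd'] with z hz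
    rw [hz.fderiv]
  | succ k ih =>
    intro a ha hd ht
    have hne : ∀ᶠ z in 𝓝[≠] (0 : E), a z ≠ 0 := ht.eventually_ne_atTop 0
    have hd' : ∀ᶠ z in 𝓝[≠] (0 : E), HasFDerivAt (fun z => (a z)⁻¹)
        (-((a z)⁻¹ * (a z)⁻¹) • fderiv ℝ a z) z := by
      filter_upwards [hd, hne] with z h1 h2
      refine ((hasDerivAt_inv h2).comp_hasFDerivAt z h1.hasFDerivAt).congr_fderiv ?_
      congr 1
      field_simp
    have h00 := ih ha.down hd ht
    refine ⟨hd'.mono fun z hz => hz.differentiableAt, h00.asy, ?_⟩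
    have h1 := Cls.smul (Cls.mul h00 h00).neg ha
    simp only [Bool.or_false, Bool.or_true] at h1
    rw [show (0 : ℤ) + 0 + (-1) = 0 - 1 by ring] at h1
    refine h1.congr ?_
    filter_upwards [hd'] with z hz
    rw [hz.fderiv]

/-- cosine and sine of a function `M` with `dM` small of order `-1` -/
lemma Cls.cos_sin {M : E → ℝ} (hd : ∀ᶠ z in 𝓝[≠] (0 : E), DifferentiableAt ℝ M z)
    (hM : ∀ k, Cls true k (-1) (fderiv ℝ M)) (k : ℕ) :
    Cls false k 0 (fun z => Real.cos (M z)) ∧ Cls false k 0 (fun z => Real.sin (M z)) := by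
  have hc : Asy false (𝓝[≠] (0 : E)) (fun z => Real.cos (M z)) (fun z => ‖z‖ ^ (0 : ℤ)) := by
    simp only [Asy, Bool.false_eq_true, if_false, zpow_zero]
    refine IsBigO.of_bound 1 (Eventually.of_forall fun z => ?_)
    simpa using Real.abs_cos_le_one (M z)
  have hs : Asy false (𝓝[≠] (0 : E)) (fun z => Real.sin (M z)) (fun z => ‖z‖ ^ (0 : ℤ)) := by
    simp only [Asy, Bool.false_eq_true, if_false, zpow_zero]
    refine IsBigO.of_bound 1 (Eventually.of_forall fun z => ?_)
    simpa using Real.abs_sin_le_one (M z)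
  induction k with
  | zero =>
    refine ⟨⟨?_, hc⟩, ⟨?_, hs⟩⟩
    · filter_upwards [hd] with z hz
      exact Real.continuous_cos.continuousAt.comp hz.continuousAt
    · filter_upwards [hd] with z hz
      exact Real.continuous_sin.continuousAt.comp hz.continuousAt
  | succ k ih =>
    refine ⟨⟨?_, hc, ?_⟩, ⟨?_, hs, ?_⟩⟩
    · filter_upwards [hd] with z hz
      exact hz.cos
    · have h1 := (Cls.smul ih.2.neg (hM k)).big
      rw [show (0 : ℤ) + -1 = 0 - 1 by ring] at h1
      refine h1.congr ?_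
      filter_upwards [hd] with z hz
      exact hz.hasFDerivAt.cos.fderiv.symm
    · filter_upwards [hd] with z hz
      exact hz.sin
    · have h1 := (Cls.smul ih.1 (hM k)).big
      rw [show (0 : ℤ) + -1 = 0 - 1 by ring] at h1
      refine h1.congr ?_
      filter_upwards [hd] with z hz
      exact hz.hasFDerivAt.sin.fderiv.symm

lemma Cls.fderiv_cos {M : E → ℝ} (hd : ∀ᶠ z in 𝓝[≠] (0 : E), DifferentiableAt ℝ M z)
    (hM : ∀ k, Cls true k (-1) (fderiv ℝ M)) (k : ℕ) :
    Cls true k (-1) (fderiv ℝ (fun z => Real.cos (M z))) := by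
  have h1 := Cls.smul (Cls.cos_sin hd hM k).2.neg (hM k)
  simp only [Bool.or_true, zero_add] at h1
  refine h1.congr ?_
  filter_upwards [hd] with z hz
  exact hz.hasFDerivAt.cos.fderiv.symm

lemma Cls.log {k : ℕ} {a : E → ℝ} (ha : Cls false k (-1) (fderiv ℝ a))
    (hd : ∀ᶠ z in 𝓝[≠] (0 : E), DifferentiableAt ℝ a z) (ht : Tendsto a (𝓝[≠] (0 : E)) atTop) :
    Cls true k (-1) (fderiv ℝ (fun z => Real.log (a z))) := by
  have hne : ∀ᶠ z in 𝓝[≠] (0 : E), a z ≠ 0 := ht.eventually_ne_atTop 0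
  have h1 := Cls.smul (Cls.inv_log ha hd ht).down ha
  simp only [Bool.or_false, zero_add] at h1
  refine h1.congr ?_
  filter_upwards [hd, hne] with z hz hz'
  exact (hz.hasFDerivAt.log hz').fderiv.symm

lemma Cls.pow {k : ℕ} {q : E → ℝ} (hq : Cls false k 1 q) (j : ℕ) :
    Cls false k j (fun z => q z ^ j) := by
  induction j with
  | zero => simpa using Cls.const (E := E) k (1 : ℝ)
  | succ j ih =>
    have := Cls.mul ih hq
    simp only [Bool.or_false] at this
    rw [show ((j + 1 : ℕ) : ℤ) = j + 1 by push_cast; ring]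
    simpa [pow_succ] using this

end general

section inner

variable {E : Type} [NormedAddCommGroup E] [InnerProductSpace ℝ E]

/-- `a(z) = 2 - log ‖z‖²` -/
noncomputable def aa (z : E) : ℝ := 2 - Real.log (‖z‖ ^ 2)

/-- The slowly oscillating function. -/
noncomputable def lam (z : E) : ℝ := Real.cos (Real.log (aa z))

lemma Cls.norm_sq (k : ℕ) : Cls false k 2 (fun z : E => ‖z‖ ^ 2) := by
  have h := Cls.bilin (innerSL ℝ (E := E)) (Cls.clm k (ContinuousLinearMap.id ℝ E))
    (Cls.clm k (ContinuousLinearMap.id ℝ E))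
  simp only [Bool.or_false] at h
  refine (show Cls false k 2 _ from h).congr ?_
  filter_upwards with z
  simp only [ContinuousLinearMap.coe_id', id_eq]
  rw [innerSL_apply_apply, real_inner_self_eq_norm_sq]

lemma log_norm_sq_hasFDerivAt {z : E} (hz : z ≠ 0) :
    HasFDerivAt (fun z : E => Real.log (‖z‖ ^ 2))
      ((‖z‖ ^ 2)⁻¹ • fderiv ℝ (fun z : E => ‖z‖ ^ 2) z) z := by
  have h1 : DifferentiableAt ℝ (fun z : E => ‖z‖ ^ 2) z := (contDiff_norm_sq ℝ (n := 1)).differentiable
    (by simp) z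
  exact h1.hasFDerivAt.log (pow_ne_zero 2 (norm_ne_zero_iff.2 hz))

lemma Cls.log_norm_sq (k : ℕ) :
    Cls false k (-1) (fderiv ℝ (fun z : E => Real.log (‖z‖ ^ 2))) := by
  have h1 : Cls false k (-2) (fun z : E => (‖z‖ ^ 2)⁻¹) := by
    refine Cls.inv (Cls.norm_sq k) ?_
    refine IsBigO.of_bound 1 (Eventually.of_forall fun z => ?_)
    rw [one_mul]
    apply le_of_eq
    norm_cast
  have h2 := Cls.smul h1 (Cls.norm_sq (E := E) (k + 1)).2.2
  simp only [Bool.or_false] at h2
  refine (show Cls false k (-1) _ from h2).congr ?_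
  filter_upwards [self_mem_nhdsWithin] with z hz
  exact (log_norm_sq_hasFDerivAt hz).fderiv.symm

lemma aa_differentiableAt {z : E} (hz : z ≠ 0) : DifferentiableAt ℝ (aa : E → ℝ) z :=
  (differentiableAt_const _).sub (log_norm_sq_hasFDerivAt hz).differentiableAt

lemma Cls.fderiv_aa (k : ℕ) : Cls false k (-1) (fderiv ℝ (aa : E → ℝ)) := by
  refine (Cls.log_norm_sq k).neg.congr ?_
  filter_upwards [self_mem_nhdsWithin] with z hz
  have : HasFDerivAt (aa : E → ℝ) (-fderiv ℝ (fun z : E => Real.log (‖z‖ ^ 2)) z) z :=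
    (log_norm_sq_hasFDerivAt hz).differentiableAt.hasFDerivAt.const_sub 2
  exact this.fderiv.symm

lemma tendsto_norm_sq : Tendsto (fun z : E => ‖z‖ ^ 2) (𝓝[≠] (0 : E)) (𝓝[>] 0) := by
  refine tendsto_nhdsWithin_iff.2 ⟨?_, ?_⟩
  · have : Tendsto (fun z : E => ‖z‖ ^ 2) (𝓝 (0 : E)) (𝓝 (‖(0 : E)‖ ^ 2)) :=
      (continuous_norm.pow 2).tendsto 0
    rw [norm_zero, zero_pow two_ne_zero] at this
    exact this.mono_left nhdsWithin_le_nhds
  · filter_upwards [self_mem_nhdsWithin] with z hz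
    exact pow_pos (norm_pos_iff.2 hz) 2

lemma aa_tendsto : Tendsto (aa : E → ℝ) (𝓝[≠] (0 : E)) atTop := by
  have h1 : Tendsto (fun z : E => Real.log (‖z‖ ^ 2)) (𝓝[≠] (0 : E)) atBot :=
    Real.tendsto_log_nhdsGT_zero.comp tendsto_norm_sq
  have h2 := tendsto_neg_atBot_atTop.comp h1
  have h3 := tendsto_atTop_add_const_left (𝓝[≠] (0 : E)) 2 h2
  refine h3.congr fun z => ?_
  simp [aa, sub_eq_add_neg]

lemma eventually_aa_diff : ∀ᶠ z in 𝓝[≠] (0 : E), DifferentiableAt ℝ (aa : E → ℝ) z := by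
  filter_upwards [self_mem_nhdsWithin] with z hz
  exact aa_differentiableAt hz

lemma eventually_logaa_diff :
    ∀ᶠ z in 𝓝[≠] (0 : E), DifferentiableAt ℝ (fun z : E => Real.log (aa z)) z := by
  filter_upwards [eventually_aa_diff, aa_tendsto.eventually_ne_atTop 0] with z hz hz'
  exact hz.log hz'

lemma cls_lam (k : ℕ) : Cls false k 0 (lam : E → ℝ) :=
  (Cls.cos_sin eventually_logaa_diff
    (fun k => Cls.log (Cls.fderiv_aa k) eventually_aa_diff aa_tendsto) k).1

lemma cls_fderiv_lam (k : ℕ) : Cls true k (-1) (fderiv ℝ (lam : E → ℝ)) :=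
  Cls.fderiv_cos eventually_logaa_diff
    (fun k => Cls.log (Cls.fderiv_aa k) eventually_aa_diff aa_tendsto) k

lemma cos_sub_cos_le (x y : ℝ) : |Real.cos x - Real.cos y| ≤ |x - y| := by
  have h := Real.abs_sin_le_one ((x + y) / 2)
  have h2 : |Real.sin ((x - y) / 2)| ≤ |(x - y) / 2| := Real.abs_sin_le_abs
  rw [Real.cos_sub_cos, abs_mul, abs_mul, abs_neg, abs_two]
  rw [abs_div, abs_two] at h2
  nlinarith [abs_nonneg (Real.sin ((x + y) / 2)), abs_nonneg (Real.sin ((x - y) / 2)),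
    abs_nonneg (x - y)]

/-- the values of `lam` at comparable points are asymptotically equal -/
lemma lam_comp_sub_tendsto (T : E ≃L[ℝ] E) :
    Tendsto (fun z : E => lam (T z) - lam z) (𝓝[≠] (0 : E)) (𝓝 0) := by
  -- the ratio of the values of `aa` tends to one
  have hT : Tendsto (fun z : E => T z) (𝓝[≠] (0 : E)) (𝓝[≠] (0 : E)) := by
    refine tendsto_nhdsWithin_iff.2 ⟨?_, ?_⟩
    · have : Tendsto (fun z : E => T z) (𝓝 (0 : E)) (𝓝 (T 0)) := T.continuous.tendsto 0
      rw [map_zero] at this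
      exact this.mono_left nhdsWithin_le_nhds
    · filter_upwards [self_mem_nhdsWithin] with z hz
      simpa using hz
  have hb : (fun z : E => aa (T z) - aa z) =O[𝓝[≠] (0 : E)] (fun _ => (1 : ℝ)) := by
    set C1 := ‖(T : E →L[ℝ] E)‖ + 1
    set C2 := ‖(T.symm : E →L[ℝ] E)‖ + 1
    have hC1 : 0 < C1 := by positivity
    have hC2 : 0 < C2 := by positivity
    refine IsBigO.of_bound (|Real.log (C1 ^ 2)| + |Real.log (C2 ^ 2)|) ?_
    filter_upwards [self_mem_nhdsWithin] with z hz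
    have hz0 : 0 < ‖z‖ := norm_pos_iff.2 hz
    have hTz : 0 < ‖T z‖ := norm_pos_iff.2 (by simpa using hz)
    have h1 : ‖T z‖ ≤ C1 * ‖z‖ := by
      refine ((T : E →L[ℝ] E).le_opNorm z).trans ?_
      have : ‖(T : E →L[ℝ] E)‖ ≤ C1 := by simp [C1]
      nlinarith
    have h2 : ‖z‖ ≤ C2 * ‖T z‖ := by
      have h3 := (T.symm : E →L[ℝ] E).le_opNorm (T z)
      have h4 : (T.symm : E →L[ℝ] E) (T z) = z := by simp
      rw [h4] at h3
      refine h3.trans ?_
      have : ‖(T.symm : E →L[ℝ] E)‖ ≤ C2 := by simp [C2]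
      nlinarith
    have h5 : Real.log (‖T z‖ ^ 2) ≤ Real.log (C1 ^ 2) + Real.log (‖z‖ ^ 2) := by
      rw [← Real.log_mul (by positivity) (by positivity), ← mul_pow]
      exact Real.log_le_log (by positivity) (pow_le_pow_left₀ hTz.le h1 2)
    have h6 : Real.log (‖z‖ ^ 2) ≤ Real.log (C2 ^ 2) + Real.log (‖T z‖ ^ 2) := by
      rw [← Real.log_mul (by positivity) (by positivity), ← mul_pow]
      exact Real.log_le_log (by positivity) (pow_le_pow_left₀ hz0.le h2 2)
    rw [norm_one, mul_one, Real.norm_eq_abs]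
    simp only [aa]
    rw [abs_le]
    have h7 := le_abs_self (Real.log (C1 ^ 2))
    have h8 := le_abs_self (Real.log (C2 ^ 2))
    have h9 := abs_nonneg (Real.log (C1 ^ 2))
    have h10 := abs_nonneg (Real.log (C2 ^ 2))
    constructor <;> linarith
  have hr : Tendsto (fun z : E => aa (T z) / aa z) (𝓝[≠] (0 : E)) (𝓝 1) := by
    have h1 : (fun z : E => (aa z)⁻¹) =o[𝓝[≠] (0 : E)] (fun _ => (1 : ℝ)) := by
      rw [isLittleO_one_iff]
      exact tendsto_inv_atTop_zero.comp aa_tendsto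
    have h2 := hb.mul_isLittleO h1
    simp only [mul_one] at h2
    rw [isLittleO_one_iff] at h2
    have h3 := h2.const_add 1
    rw [add_zero] at h3
    refine h3.congr' ?_
    filter_upwards [aa_tendsto.eventually_ne_atTop 0] with z hz
    field_simp
    ring
  have hl : Tendsto (fun z : E => Real.log (aa (T z)) - Real.log (aa z)) (𝓝[≠] (0 : E)) (𝓝 0) := by
    have h1 := (Real.continuousAt_log one_ne_zero).tendsto.comp hr
    rw [Real.log_one] at h1
    refine h1.congr' ?_
    filter_upwards [aa_tendsto.eventually_ne_atTop 0,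
      hT.eventually (aa_tendsto.eventually_ne_atTop 0)] with z hz hz'
    simp only [Function.comp]
    rw [Real.log_div hz' hz]
  rw [tendsto_zero_iff_norm_tendsto_zero] at hl ⊢
  refine squeeze_zero (fun z => norm_nonneg _) (fun z => ?_) hl
  exact cos_sub_cos_le _ _

lemma tendsto_clm_equiv (T : E ≃L[ℝ] E) :
    Tendsto (fun z : E => T z) (𝓝[≠] (0 : E)) (𝓝[≠] (0 : E)) := by
  refine tendsto_nhdsWithin_iff.2 ⟨?_, ?_⟩
  · have : Tendsto (fun z : E => T z) (𝓝 (0 : E)) (𝓝 (T 0)) := T.continuous.tendsto 0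
    rw [map_zero] at this
    exact this.mono_left nhdsWithin_le_nhds
  · filter_upwards [self_mem_nhdsWithin] with z hz
    simpa using hz

lemma isBigO_clm_equiv (T : E ≃L[ℝ] E) :
    (fun z : E => ‖z‖) =O[𝓝[≠] (0 : E)] (fun z : E => T z) := by
  refine IsBigO.of_bound ‖(T.symm : E →L[ℝ] E)‖ (Eventually.of_forall fun z => ?_)
  have h3 := (T.symm : E →L[ℝ] E).le_opNorm (T z)
  have h4 : (T.symm : E →L[ℝ] E) (T z) = z := by simp
  rw [h4] at h3
  simpa using h3

lemma Cls.comp_equiv {b : Bool} {k : ℕ} {F : Type} [NormedAddCommGroup F] [NormedSpace ℝ F]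
    {s : ℤ} {f : E → F} (hf : Cls b k s f) (T : E ≃L[ℝ] E) : Cls b k s (fun z => f (T z)) :=
  Cls.comp hf (Cls.clm k (T : E →L[ℝ] E)) (tendsto_clm_equiv T) (isBigO_clm_equiv T)

lemma eventually_lam_diff : ∀ᶠ z in 𝓝[≠] (0 : E), DifferentiableAt ℝ (lam : E → ℝ) z := by
  filter_upwards [eventually_logaa_diff] with z hz
  exact hz.cos

lemma cls_lam_comp_sub (T : E ≃L[ℝ] E) (k : ℕ) :
    Cls true k 0 (fun z : E => lam (T z) - lam z) := by
  have h0 : Asy true (𝓝[≠] (0 : E)) (fun z : E => lam (T z) -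
      lam z) (fun z => ‖z‖ ^ (0 : ℤ)) := by
    simp only [Asy, if_true, zpow_zero]
    rw [isLittleO_one_iff]
    exact lam_comp_sub_tendsto T
  have hd : ∀ᶠ z in 𝓝[≠] (0 : E), HasFDerivAt (fun z : E => lam (T z) -
      lam z) ((fderiv ℝ lam (T z)).comp (T : E →L[ℝ] E) -
        fderiv ℝ lam z) z := by
    filter_upwards [eventually_lam_diff, (tendsto_clm_equiv T).eventually eventually_lam_diff]
      with z hz hz'
    exact (hz'.hasFDerivAt.comp z T.hasFDerivAt).sub hz.hasFDerivAt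
  cases k with
  | zero => exact ⟨hd.mono fun z hz => hz.continuousAt, h0⟩
  | succ k =>
    refine ⟨hd.mono fun z hz => hz.differentiableAt, h0, ?_⟩
    have h1 := (cls_fderiv_lam (E := E) k).comp_equiv T
    have h2 := h1.clm_comp ((ContinuousLinearMap.compL ℝ E E ℝ).flip (T : E →L[ℝ] E))
    have h3 := h2.sub (cls_fderiv_lam k)
    rw [show (0 : ℤ) - 1 = -1 by ring]
    refine h3.congr ?_
    filter_upwards [hd] with z hz
    rw [hz.fderiv]
    rfl

end inner

end Pool.Agent.R777
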