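import Mathlib

/-! Symbol classes at a point: functions on a punctured neighbourhood of the origin all of whose
derivatives of order at most `k` are `O(‖z‖^(s-j))` or `o(‖z‖^(s-j))`. -/

set_option linter.unusedVariables false
set_option linter.unusedSectionVars false
set_option linter.unusedSimpArgs false

open Filter Topology Asymptotics Set

namespace Pool.Agent.R777

/-- `f = o(g)` for `b = true` and `f = O(g)` for `b = false`. -/
def Asy (b : Bool) {α : Type*} {F : Type*} [Norm F] (l : Filter α) (f : α → F) (g : α → ℝ) :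
    Prop :=
  if b = true then f =o[l] g else f =O[l] g

lemma Asy.isBigO {b : Bool} {α : Type*} {F : Type*} [Norm F] {l : Filter α} {f : α → F}
    {g : α → ℝ} (h : Asy b l f g) : f =O[l] g := by
  cases b
  · simpa [Asy] using h
  · have h' : f =o[l] g := by simpa [Asy] using h
    exact h'.isBigO

lemma Asy.congr' {b : Bool} {α : Type*} {F : Type*} [Norm F] {l : Filter α} {f f' : α → F}
    {g g' : α → ℝ} (h : Asy b l f g) (hf : f =ᶠ[l] f') (hg : g =ᶠ[l] g') : Asy b l f' g' := by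
  cases b
  · have h' : f =O[l] g := by simpa [Asy] using h
    simpa [Asy] using h'.congr' hf hg
  · have h' : f =o[l] g := by simpa [Asy] using h
    simpa [Asy] using h'.congr' hf hg

lemma Asy.trans_isBigO {b : Bool} {α : Type*} {F : Type*} [Norm F] {l : Filter α} {f : α → F}
    {g g' : α → ℝ} (h : Asy b l f g) (hg : g =O[l] g') : Asy b l f g' := by
  cases b
  · have h' : f =O[l] g := by simpa [Asy] using h
    simpa [Asy] using h'.trans hg
  · have h' : f =o[l] g := by simpa [Asy] using h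
    simpa [Asy] using h'.trans_isBigO hg

lemma Asy.of_isBigO {b : Bool} {α : Type*} {F F' : Type*} [Norm F] [SeminormedAddCommGroup F']
    {l : Filter α}
    {f : α → F} {f' : α → F'} {g : α → ℝ} (h : Asy b l f' g) (hf : f =O[l] f') : Asy b l f g := by
  cases b
  · have h' : f' =O[l] g := by simpa [Asy] using h
    simpa [Asy] using hf.trans h'
  · have h' : f' =o[l] g := by simpa [Asy] using h
    simpa [Asy] using hf.trans_isLittleO h'

lemma Asy.comp {b : Bool} {α β : Type*} {F : Type*} [Norm F] {l : Filter α} {l' : Filter β}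
    {f : α → F} {g : α → ℝ} (h : Asy b l f g) {u : β → α} (hu : Tendsto u l' l) :
    Asy b l' (f ∘ u) (g ∘ u) := by
  cases b
  · have h' : f =O[l] g := by simpa [Asy] using h
    simpa [Asy] using h'.comp_tendsto hu
  · have h' : f =o[l] g := by simpa [Asy] using h
    simpa [Asy] using h'.comp_tendsto hu

variable {E : Type} [NormedAddCommGroup E] [NormedSpace ℝ E]

/-- The class of functions whose derivatives of order `j ≤ k` are `O(‖z‖^(s-j))`
(or `o(‖z‖^(s-j))`). -/
def Cls (b : Bool) : ℕ → ∀ {F : Type} [NormedAddCommGroup F] [NormedSpace ℝ F],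
    ℤ → (E → F) → Prop
  | 0, _, _, _, s, f => (∀ᶠ z in 𝓝[≠] (0 : E), ContinuousAt f z) ∧
      Asy b (𝓝[≠] (0 : E)) f (fun z => ‖z‖ ^ s)
  | k + 1, _, _, _, s, f => (∀ᶠ z in 𝓝[≠] (0 : E), DifferentiableAt ℝ f z) ∧
      Asy b (𝓝[≠] (0 : E)) f (fun z => ‖z‖ ^ s) ∧ Cls b k (s - 1) (fderiv ℝ f)

section

variable {F : Type} [NormedAddCommGroup F] [NormedSpace ℝ F]
variable {G : Type} [NormedAddCommGroup G] [NormedSpace ℝ G]
variable {H : Type} [NormedAddCommGroup H] [NormedSpace ℝ H]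

lemma Cls.asy {b : Bool} {k : ℕ} {s : ℤ} {f : E → F} (h : Cls b k s f) :
    Asy b (𝓝[≠] (0 : E)) f (fun z => ‖z‖ ^ s) := by
  cases k with
  | zero => exact h.2
  | succ k => exact h.2.1

lemma Cls.cont {b : Bool} {k : ℕ} {s : ℤ} {f : E → F} (h : Cls b k s f) :
    ∀ᶠ z in 𝓝[≠] (0 : E), ContinuousAt f z := by
  cases k with
  | zero => exact h.1
  | succ k => exact h.1.mono fun z hz => hz.continuousAt

lemma Cls.down {b : Bool} : ∀ {k : ℕ} {F : Type} [NormedAddCommGroup F] [NormedSpace ℝ F]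
    {s : ℤ} {f : E → F}, Cls b (k + 1) s f → Cls b k s f
  | 0, _, _, _, s, f, h => ⟨h.1.mono fun z hz => hz.continuousAt, h.2.1⟩
  | k + 1, _, _, _, s, f, h => ⟨h.1, h.2.1, h.2.2.down⟩

lemma Cls.big {b : Bool} : ∀ {k : ℕ} {F : Type} [NormedAddCommGroup F] [NormedSpace ℝ F]
    {s : ℤ} {f : E → F}, Cls b k s f → Cls false k s f
  | 0, _, _, _, s, f, h => ⟨h.1, by simpa [Asy] using h.2.isBigO⟩
  | k + 1, _, _, _, s, f, h => ⟨h.1, by simpa [Asy] using h.2.1.isBigO, h.2.2.big⟩

lemma eventually_punctured {p : E → Prop} (h : ∀ᶠ z in 𝓝[≠] (0 : E), p z) :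
    ∀ᶠ z in 𝓝[≠] (0 : E), ∀ᶠ y in 𝓝 z, p y := by
  have h1 : ∀ᶠ z in 𝓝[≠] (0 : E), ∀ᶠ y in 𝓝[≠] z, p y ∨ y = 0 := by
    rw [eventually_nhdsWithin_iff] at h
    have h2 := h.eventually_nhds
    filter_upwards [nhdsWithin_le_nhds h2] with z hz
    refine nhdsWithin_le_nhds ?_
    filter_upwards [hz] with y hy
    by_cases hy0 : y = 0
    · exact Or.inr hy0
    · exact Or.inl (hy hy0)
  rw [eventually_nhdsWithin_iff] at h
  have h2 := h.eventually_nhds
  filter_upwards [nhdsWithin_le_nhds h2, self_mem_nhdsWithin] with z hz hz0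
  have h3 : ∀ᶠ y in 𝓝 z, y ≠ 0 := isOpen_ne.mem_nhds hz0
  filter_upwards [hz, h3] with y hy hy0
  exact hy hy0

lemma fderiv_congr_punctured {f g : E → F} (h : f =ᶠ[𝓝[≠] (0 : E)] g) :
    fderiv ℝ f =ᶠ[𝓝[≠] (0 : E)] fderiv ℝ g := by
  filter_upwards [eventually_punctured h] with z hz
  exact Filter.EventuallyEq.fderiv_eq hz

lemma Cls.congr {b : Bool} : ∀ {k : ℕ} {F : Type} [NormedAddCommGroup F] [NormedSpace ℝ F]
    {s : ℤ} {f g : E → F}, Cls b k s f → f =ᶠ[𝓝[≠] (0 : E)] g → Cls b k s g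
  | 0, _, _, _, s, f, g, h, hfg => by
    refine ⟨?_, h.2.congr' hfg EventuallyEq.rfl⟩
    filter_upwards [eventually_punctured hfg, h.1] with z hz hz'
    exact hz'.congr hz
  | k + 1, _, _, _, s, f, g, h, hfg => by
    refine ⟨?_, h.2.1.congr' hfg EventuallyEq.rfl, h.2.2.congr (fderiv_congr_punctured hfg)⟩
    filter_upwards [eventually_punctured hfg, h.1] with z hz hz'
    exact (Filter.EventuallyEq.differentiableAt_iff hz).1 hz'

lemma zpow_isBigO {s s' : ℤ} (h : s' ≤ s) :
    (fun z : E => ‖z‖ ^ s) =O[𝓝[≠] (0 : E)] (fun z => ‖z‖ ^ s') := by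
  refine IsBigO.of_bound 1 ?_
  have h1 : ∀ᶠ z in 𝓝[≠] (0 : E), ‖z‖ < 1 := by
    refine nhdsWithin_le_nhds ?_
    have := Metric.ball_mem_nhds (0 : E) one_pos
    filter_upwards [this] with z hz
    simpa using hz
  filter_upwards [h1, self_mem_nhdsWithin] with z hz hz0
  have hz1 : 0 < ‖z‖ := norm_pos_iff.2 hz0
  rw [Real.norm_of_nonneg (zpow_nonneg hz1.le _), Real.norm_of_nonneg (zpow_nonneg hz1.le _),
    one_mul]
  exact zpow_le_zpow_right_of_le_one₀ hz1 hz.le h

lemma Cls.weaken {b : Bool} : ∀ {k : ℕ} {F : Type} [NormedAddCommGroup F] [NormedSpace ℝ F]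
    {s s' : ℤ} {f : E → F}, Cls b k s f → s' ≤ s → Cls b k s' f
  | 0, _, _, _, s, s', f, h, hs => ⟨h.1, h.2.trans_isBigO (zpow_isBigO hs)⟩
  | k + 1, _, _, _, s, s', f, h, hs =>
    ⟨h.1, h.2.1.trans_isBigO (zpow_isBigO hs), h.2.2.weaken (by omega)⟩

/-- zero function -/
lemma Cls.zero (b : Bool) : ∀ (k : ℕ) {F : Type} [NormedAddCommGroup F] [NormedSpace ℝ F]
    (s : ℤ), Cls b k s (fun _ : E => (0 : F))
  | 0, _, _, _, s => by
    refine ⟨Eventually.of_forall fun z => continuousAt_const, ?_⟩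
    cases b <;> simp [Asy, isBigO_zero, isLittleO_zero]
  | k + 1, _, _, _, s => by
    refine ⟨Eventually.of_forall fun z => differentiableAt_const _, ?_, ?_⟩
    · cases b <;> simp [Asy, isBigO_zero, isLittleO_zero]
    · exact (Cls.zero b k (s - 1)).congr (Eventually.of_forall fun z => by simp)

lemma Cls.const (k : ℕ) (c : F) : Cls false k 0 (fun _ : E => c) := by
  have h0 : Asy false (𝓝[≠] (0 : E)) (fun _ : E => c) (fun z => ‖z‖ ^ (0 : ℤ)) := by
    simp only [Asy, zpow_zero]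
    simpa using isBigO_const_const c (one_ne_zero : (1 : ℝ) ≠ 0) _
  cases k with
  | zero => exact ⟨Eventually.of_forall fun z => continuousAt_const, h0⟩
  | succ k =>
    refine ⟨Eventually.of_forall fun z => differentiableAt_const _, h0, ?_⟩
    exact (Cls.zero false k (0 - 1)).congr (Eventually.of_forall fun z => by simp)

lemma Cls.clm (k : ℕ) (L : E →L[ℝ] F) : Cls false k 1 (fun z : E => L z) := by
  have h0 : Asy false (𝓝[≠] (0 : E)) (fun z : E => L z) (fun z => ‖z‖ ^ (1 : ℤ)) := by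
    simp only [Asy, zpow_one]
    simp only [Bool.false_eq_true, if_false]
    exact (L.isBigO_id _).norm_right
  cases k with
  | zero => exact ⟨Eventually.of_forall fun z => L.continuous.continuousAt, h0⟩
  | succ k =>
    refine ⟨Eventually.of_forall fun z => L.differentiableAt, h0, ?_⟩
    exact (Cls.const k L).congr (Eventually.of_forall fun z => by simp)

/-- composition with a continuous linear map on the left -/
lemma Cls.clm_comp {b : Bool} : ∀ {k : ℕ} {F G : Type} [NormedAddCommGroup F] [NormedSpace ℝ F]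
    [NormedAddCommGroup G] [NormedSpace ℝ G]
    {s : ℤ} {f : E → F} (L : F →L[ℝ] G), Cls b k s f → Cls b k s (fun z => L (f z))
  | 0, F, G, _, _, _, _, s, f, L, h => by
    refine ⟨?_, h.2.of_isBigO (L.isBigO_comp _ _)⟩
    filter_upwards [h.1] with z hz
    exact L.continuous.continuousAt.comp hz
  | k + 1, F, G, _, _, _, _, s, f, L, h => by
    refine ⟨?_, h.2.1.of_isBigO (L.isBigO_comp _ _), ?_⟩
    · filter_upwards [h.1] with z hz
      exact L.differentiableAt.comp z hz
    · refine (h.2.2.clm_comp (ContinuousLinearMap.compL ℝ E F G L)).congr ?_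
      filter_upwards [h.1] with z hz
      have : HasFDerivAt (fun z => L (f z)) (L.comp (fderiv ℝ f z)) z :=
        L.hasFDerivAt.comp z hz.hasFDerivAt
      rw [this.fderiv]
      rfl

lemma Cls.add {b : Bool} : ∀ {k : ℕ} {F : Type} [NormedAddCommGroup F] [NormedSpace ℝ F]
    {s : ℤ} {f g : E → F}, Cls b k s f → Cls b k s g → Cls b k s (fun z => f z + g z)
  | 0, F, _, _, s, f, g, hf, hg => by
    refine ⟨?_, ?_⟩
    · filter_upwards [hf.1, hg.1] with z hz hz'
      exact hz.add hz'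
    · have h1 := hf.2
      have h2 := hg.2
      cases b
      · simp only [Asy, Bool.false_eq_true, if_false] at *
        exact h1.add h2
      · simp only [Asy, if_true] at *
        exact h1.add h2
  | k + 1, F, _, _, s, f, g, hf, hg => by
    refine ⟨?_, ?_, ?_⟩
    · filter_upwards [hf.1, hg.1] with z hz hz'
      exact hz.add hz'
    · have h1 := hf.2.1
      have h2 := hg.2.1
      cases b
      · simp only [Asy, Bool.false_eq_true, if_false] at *
        exact h1.add h2
      · simp only [Asy, if_true] at *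
        exact h1.add h2
    · refine (hf.2.2.add hg.2.2).congr ?_
      filter_upwards [hf.1, hg.1] with z hz hz'
      exact (fderiv_fun_add hz hz').symm

lemma Cls.neg {b : Bool} {k : ℕ} {s : ℤ} {f : E → F} (h : Cls b k s f) :
    Cls b k s (fun z => - f z) := by
  have := h.clm_comp (-ContinuousLinearMap.id ℝ F)
  simpa using this

lemma Cls.sub {b : Bool} {k : ℕ} {s : ℤ} {f g : E → F} (hf : Cls b k s f) (hg : Cls b k s g) :
    Cls b k s (fun z => f z - g z) := by
  simpa [sub_eq_add_neg] using hf.add hg.neg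

lemma Asy.bilin {b b' : Bool} {l : Filter E} (B : F →L[ℝ] G →L[ℝ] H) {f : E → F} {g : E → G}
    {u v : E → ℝ} (hf : Asy b l f u) (hg : Asy b' l g v) :
    Asy (b || b') l (fun z => B (f z) (g z)) (fun z => u z * v z) := by
  have hB : (fun z => B (f z) (g z)) =O[l] (fun z => ‖f z‖ * ‖g z‖) := by
    refine IsBigO.of_bound ‖B‖ (Eventually.of_forall fun z => ?_)
    rw [Real.norm_of_nonneg (mul_nonneg (norm_nonneg _) (norm_nonneg _)), ← mul_assoc]
    exact B.le_opNorm₂ _ _
  refine Asy.of_isBigO ?_ hB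
  cases b <;> cases b' <;>
    simp only [Asy, Bool.false_eq_true, if_false, if_true, Bool.or_self, Bool.or_true,
      Bool.true_or, Bool.or_false, Bool.false_or] at *
  · exact hf.norm_left.mul hg.norm_left
  · exact hf.norm_left.mul_isLittleO hg.norm_left
  · exact hf.norm_left.mul_isBigO hg.norm_left
  · exact hf.norm_left.mul hg.norm_left

lemma norm_zpow_mul (s s' : ℤ) :
    (fun z : E => ‖z‖ ^ s * ‖z‖ ^ s') =ᶠ[𝓝[≠] (0 : E)] (fun z => ‖z‖ ^ (s + s')) := by
  filter_upwards [self_mem_nhdsWithin] with z hz0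
  rw [zpow_add₀ (norm_ne_zero_iff.2 hz0)]

lemma Cls.bilin {b b' : Bool} : ∀ {k : ℕ} {F G H : Type} [NormedAddCommGroup F] [NormedSpace ℝ F]
    [NormedAddCommGroup G] [NormedSpace ℝ G] [NormedAddCommGroup H] [NormedSpace ℝ H]
    {s s' : ℤ} {f : E → F} {g : E → G} (B : F →L[ℝ] G →L[ℝ] H),
    Cls b k s f → Cls b' k s' g → Cls (b || b') k (s + s') (fun z => B (f z) (g z))
  | 0, F, G, H, _, _, _, _, _, _, s, s', f, g, B, hf, hg => by
    refine ⟨?_, (Asy.bilin B hf.2 hg.2).congr' EventuallyEq.rfl (norm_zpow_mul s s')⟩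
    filter_upwards [hf.1, hg.1] with z hz hz'
    exact (B.continuous.continuousAt.comp hz).clm_apply hz'
  | k + 1, F, G, H, _, _, _, _, _, _, s, s', f, g, B, hf, hg => by
    refine ⟨?_, (Asy.bilin B hf.2.1 hg.2.1).congr' EventuallyEq.rfl (norm_zpow_mul s s'), ?_⟩
    · filter_upwards [hf.1, hg.1] with z hz hz'
      exact (B.differentiableAt.comp z hz).clm_apply hz'
    · have h1 : Cls (b || b') k (s + s' - 1)
          (fun z => B.precompR E (f z) (fderiv ℝ g z)) := by
        have := Cls.bilin (B.precompR E) hf.down hg.2.2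
        rwa [show s + (s' - 1) = s + s' - 1 by ring] at this
      have h2 : Cls (b || b') k (s + s' - 1)
          (fun z => B.precompL E (fderiv ℝ f z) (g z)) := by
        have := Cls.bilin (B.precompL E) hf.2.2 hg.down
        rwa [show s - 1 + s' = s + s' - 1 by ring] at this
      refine (h1.add h2).congr ?_
      filter_upwards [hf.1, hg.1] with z hz hz'
      exact (B.hasFDerivAt_of_bilinear hz.hasFDerivAt hz'.hasFDerivAt).fderiv.symm

lemma Cls.mul {b b' : Bool} {k : ℕ} {s s' : ℤ} {f g : E → ℝ} (hf : Cls b k s f)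
    (hg : Cls b' k s' g) : Cls (b || b') k (s + s') (fun z => f z * g z) := by
  simpa using Cls.bilin (ContinuousLinearMap.mul ℝ ℝ) hf hg

lemma Cls.smul {b b' : Bool} {k : ℕ} {s s' : ℤ} {f : E → ℝ} {g : E → F} (hf : Cls b k s f)
    (hg : Cls b' k s' g) : Cls (b || b') k (s + s') (fun z => f z • g z) := by
  simpa using Cls.bilin (ContinuousLinearMap.lsmul ℝ ℝ) hf hg

end

section comp

variable {E' : Type} [NormedAddCommGroup E'] [NormedSpace ℝ E']

lemma Asy.comp_psi {b : Bool} {F : Type} [NormedAddCommGroup F] {s : ℤ} {f : E' → F} {ψ : E → E'}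
    (hf : Asy b (𝓝[≠] (0 : E')) f (fun z => ‖z‖ ^ s))
    (hψ : ψ =O[𝓝[≠] (0 : E)] (fun z => ‖z‖))
    (ht : Tendsto ψ (𝓝[≠] (0 : E)) (𝓝[≠] (0 : E')))
    (hl : (fun z : E => ‖z‖) =O[𝓝[≠] (0 : E)] ψ) :
    Asy b (𝓝[≠] (0 : E)) (fun z => f (ψ z)) (fun z => ‖z‖ ^ s) := by
  have h1 : (fun z => ‖ψ z‖) =Θ[𝓝[≠] (0 : E)] (fun z => ‖z‖) := ⟨hψ.norm_left, hl.norm_right⟩
  exact (hf.comp ht).trans_isBigO (h1.zpow s).1

lemma Cls.comp {b : Bool} : ∀ {k : ℕ} {F : Type} [NormedAddCommGroup F] [NormedSpace ℝ F]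
    {s : ℤ} {f : E' → F} {ψ : E → E'}, Cls b k s f → Cls false k 1 ψ →
    Tendsto ψ (𝓝[≠] (0 : E)) (𝓝[≠] (0 : E')) →
    (fun z : E => ‖z‖) =O[𝓝[≠] (0 : E)] ψ → Cls b k s (fun z => f (ψ z))
  | 0, F, _, _, s, f, ψ, hf, hψ, ht, hl => by
    refine ⟨?_, hf.2.comp_psi (by simpa [Asy] using hψ.2.isBigO) ht hl⟩
    filter_upwards [hψ.1, ht.eventually hf.1] with z hz hz'
    exact ContinuousAt.comp (g := f) hz' hz
  | k + 1, F, _, _, s, f, ψ, hf, hψ, ht, hl => by
    refine ⟨?_, hf.2.1.comp_psi (by simpa [Asy] using hψ.2.1.isBigO) ht hl, ?_⟩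
    · filter_upwards [hψ.1, ht.eventually hf.1] with z hz hz'
      exact DifferentiableAt.comp z hz' hz
    · have h1 := Cls.comp hf.2.2 hψ.down ht hl
      have h2 := Cls.bilin (ContinuousLinearMap.compL ℝ E E' F) h1 hψ.2.2
      rw [Bool.or_false, show s - 1 + (1 - 1) = s - 1 by ring] at h2
      refine h2.congr ?_
      filter_upwards [hψ.1, ht.eventually hf.1] with z hz hz'
      exact (fderiv_comp z hz' hz).symm

end comp

section

variable {F : Type} [NormedAddCommGroup F] [NormedSpace ℝ F]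

lemma Cls.hasFDerivAt {k : ℕ} {f : E → F} (h : Cls true (k + 1) (k + 1 : ℕ) f) (h0 : f 0 = 0) :
    HasFDerivAt f (0 : E →L[ℝ] F) 0 := by
  rw [hasFDerivAt_iff_isLittleO_nhds_zero]
  have h1 : f =o[𝓝[≠] (0 : E)] (fun z => ‖z‖ ^ ((k + 1 : ℕ) : ℤ)) := by
    simpa [Asy] using h.asy
  have h2 : f =o[𝓝[≠] (0 : E)] (fun z => ‖z‖ ^ (1 : ℤ)) :=
    h1.trans_isBigO (zpow_isBigO (by omega))
  have h3 : f =o[𝓝[≠] (0 : E)] (fun z => z) := by
    simp only [zpow_one] at h2
    exact h2.of_norm_right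
  rw [← nhdsNE_sup_pure, isLittleO_sup]
  simp only [zero_add, h0, ContinuousLinearMap.zero_apply, sub_zero]
  refine ⟨h3, ?_⟩
  rw [isLittleO_pure]
  exact h0

lemma Cls.contDiffAt : ∀ {k : ℕ} {F : Type} [NormedAddCommGroup F] [NormedSpace ℝ F]
    {f : E → F}, Cls true k (k : ℤ) f → f 0 = 0 → ContDiffAt ℝ k f 0
  | 0, F, _, _, f, h, h0 => by
    have h1 : f =o[𝓝[≠] (0 : E)] (fun z => ‖z‖ ^ ((0 : ℕ) : ℤ)) := by
      simpa [Asy] using h.2
    simp only [Nat.cast_zero, zpow_zero] at h1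
    have h2 : Tendsto f (𝓝[≠] (0 : E)) (𝓝 (f 0)) := by
      rw [h0]
      exact (isLittleO_one_iff ℝ).1 h1
    have h3 : ContinuousAt f 0 := by
      rw [continuousAt_iff_punctured_nhds]
      exact h2
    have h4 := h.1
    rw [eventually_nhdsWithin_iff] at h4
    rw [Nat.cast_zero, contDiffAt_zero]
    refine ⟨_, h4, fun z hz => ?_⟩
    by_cases hz0 : z = 0
    · rw [hz0]
      exact h3.continuousWithinAt
    · exact (hz hz0).continuousWithinAt
  | k + 1, F, _, _, f, h, h0 => by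
    have hd := Cls.hasFDerivAt (k := k) h h0
    have h1 : Cls true k (k : ℤ) (fderiv ℝ f) := by
      have := h.2.2
      rwa [show ((k + 1 : ℕ) : ℤ) - 1 = k by push_cast; ring] at this
    have h2 := Cls.contDiffAt h1 hd.fderiv
    rw [Nat.cast_add, Nat.cast_one, contDiffAt_succ_iff_hasFDerivAt]
    refine ⟨fderiv ℝ f, ?_, h2⟩
    have h4 := h.1
    rw [eventually_nhdsWithin_iff] at h4
    refine ⟨_, h4, fun z hz => ?_⟩
    by_cases hz0 : z = 0
    · rw [hz0]
      exact hd.differentiableAt.hasFDerivAt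
    · exact (hz hz0).hasFDerivAt

end

section inverse

variable {R : Type} [NormedRing R] [NormedAlgebra ℝ R] [HasSummableGeomSeries R]

/-- inverses of invertible elements with bounded inverse -/
lemma Cls.ringInverse : ∀ {k : ℕ} {f : E → R}, Cls false k 0 f →
    (∀ᶠ z in 𝓝[≠] (0 : E), IsUnit (f z)) →
    (fun z => Ring.inverse (f z)) =O[𝓝[≠] (0 : E)] (fun _ => (1 : ℝ)) →
    Cls false k 0 (fun z => Ring.inverse (f z))
  | 0, f, hf, hu, hb => by
    refine ⟨?_, by simpa [Asy] using hb⟩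
    filter_upwards [hf.1, hu] with z hz hz'
    obtain ⟨u, hu⟩ := hz'
    have h1 : ContinuousAt Ring.inverse (f z) := by
      rw [← hu]
      exact NormedRing.inverse_continuousAt u
    exact ContinuousAt.comp (g := Ring.inverse) h1 hz
  | k + 1, f, hf, hu, hb => by
    have hd : ∀ᶠ z in 𝓝[≠] (0 : E), HasFDerivAt (fun z => Ring.inverse (f z))
        ((-ContinuousLinearMap.mulLeftRight ℝ R (Ring.inverse (f z)) (Ring.inverse (f z))).comp
          (fderiv ℝ f z)) z := by
      filter_upwards [hf.1, hu] with z hz hz'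
      obtain ⟨u, hu⟩ := hz'
      have h1 := hasFDerivAt_ringInverse (𝕜 := ℝ) u
      rw [hu] at h1
      have h2 : (↑u⁻¹ : R) = Ring.inverse (f z) := by rw [← hu, Ring.inverse_unit]
      rw [h2] at h1
      exact h1.comp z hz.hasFDerivAt
    refine ⟨hd.mono fun z hz => hz.differentiableAt, by simpa [Asy] using hb, ?_⟩
    have ih := Cls.ringInverse hf.down hu hb
    have h1 := Cls.bilin (ContinuousLinearMap.mulLeftRight ℝ R) ih ih
    have h2 := Cls.bilin (ContinuousLinearMap.compL ℝ E R R) h1.neg hf.2.2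
    simp only [Bool.or_false, add_zero, zero_add] at h2
    refine h2.congr ?_
    filter_upwards [hd] with z hz
    rw [hz.fderiv]
    rfl

end inverse

end Pool.Agent.R777
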