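import Pool.Agent.R537.VC.Defs

/-! Piece MC of project VC (MP_77492d_lc). -/

set_option autoImplicit false

namespace Pool.Agent.R777.VCMC

open Pool.Agent.NPC Pool.Agent.NPC.ER Pool.Agent.NPC.R537VC

theorem eval_sbT (g : ℕ → ℕ) (a : ℕ → ℝ) (t : Tm) :
    (sbT g t).eval a = t.eval (fun i => a (g i)) := by
  induction t with
  | var i => rfl
  | zero => rfl
  | one => rfl
  | add s t hs ht => simp only [sbT, Tm.eval, hs, ht]
  | neg t ht => simp only [sbT, Tm.eval, ht]
  | mul s t hs ht => simp only [sbT, Tm.eval, hs, ht]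

theorem holds_sbF (g : ℕ → ℕ) (a : ℕ → ℝ) (φ : Fm) :
    (sbF g φ).Holds a ↔ φ.Holds (fun i => a (g i)) := by
  induction φ with
  | eq s t => simp only [sbF, Fm.Holds, eval_sbT]
  | lt s t => simp only [sbF, Fm.Holds, eval_sbT]
  | le s t => simp only [sbF, Fm.Holds, eval_sbT]
  | not φ h => simp only [sbF, Fm.Holds, h]
  | and φ ψ h1 h2 => simp only [sbF, Fm.Holds, h1, h2]
  | or φ ψ h1 h2 => simp only [sbF, Fm.Holds, h1, h2]

theorem holds_andL (a : ℕ → ℝ) (l : List Fm) :
    (andL l).Holds a ↔ ∀ φ ∈ l, φ.Holds a := by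
  induction l with
  | nil => simp [andL, Fm.Holds]
  | cons φ l h => simp only [andL, Fm.Holds, h, List.forall_mem_cons]

/-- the point number `j` -/
def pt (n : ℕ) (x : ℕ → ℝ) (j : ℕ) : Fin n → ℝ := fun i => x (3 * (j * n + i))

theorem mix_eq (n k : ℕ) (x y z : ℕ → ℝ) (j : ℕ) (hj : j < k) :
    (fun i => mix3 ((List.range (k * n)).map (fun t => 3 * t))
      ((List.range k).map (fun j => 3 * j + 1)) x y z (mvar n j i)) =
    vasg n (pt n x j) (fun i => z (3 * i + 2)) := by
  funext i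
  unfold mvar vasg mix3 pt
  by_cases hi : i < n
  · have h1 : 3 * (j * n + i) ∈ (List.range (k * n)).map (fun t => 3 * t) := by
      rw [List.mem_map]
      refine ⟨j * n + i, ?_, rfl⟩
      rw [List.mem_range]
      calc j * n + i < j * n + n := by omega
        _ = (j + 1) * n := by ring
        _ ≤ k * n := Nat.mul_le_mul_right _ hj
    rw [if_pos hi, if_pos h1, dif_pos hi]
  · have h1 : ¬ (3 * i + 2 ∈ (List.range (k * n)).map (fun t => 3 * t)) := by
      rw [List.mem_map]
      rintro ⟨t, -, ht⟩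
      omega
    have h2 : ¬ (3 * i + 2 ∈ (List.range k).map (fun j => 3 * j + 1)) := by
      rw [List.mem_map]
      rintro ⟨t, -, ht⟩
      omega
    rw [if_neg hi, if_neg h1, if_neg h2, dif_neg hi]

theorem mix_u (n k : ℕ) (x y z : ℕ → ℝ) (j : ℕ) (hj : j < k) :
    mix3 ((List.range (k * n)).map (fun t => 3 * t))
      ((List.range k).map (fun j => 3 * j + 1)) x y z (3 * j + 1) = y (3 * j + 1) := by
  unfold mix3
  have h1 : ¬ (3 * j + 1 ∈ (List.range (k * n)).map (fun t => 3 * t)) := by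
    rw [List.mem_map]
    rintro ⟨t, -, ht⟩
    omega
  have h2 : 3 * j + 1 ∈ (List.range k).map (fun j => 3 * j + 1) := by
    rw [List.mem_map]
    exact ⟨j, List.mem_range.mpr hj, rfl⟩
  rw [if_neg h1, if_pos h2]

theorem bre_eq_one (b : Bool) : bre b = 1 ↔ b = true := by
  cases b <;> simp [bre]

theorem ebe_iff (I : VInst) : EBE (msen I) ↔ 1 ≤ I.2.2.length ∧ ∃ x : ℕ → ℝ, ∀ b : ℕ → Bool,
    ∃ z : ℕ → ℝ, ∀ j < I.2.2.length,
      (b (3 * j + 1) = true ↔ I.1.Holds (vasg I.2.1.length (pt I.2.1.length x j)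
        (fun i => z (3 * i + 2)))) := by
  have key : ∀ (x : ℕ → ℝ) (b : ℕ → Bool) (z : ℕ → ℝ),
      (msen I).2.2.Holds (mix3 (msen I).1 (msen I).2.1 x (fun i => bre (b i)) z) ↔
      (1 ≤ I.2.2.length ∧ ∀ j < I.2.2.length,
      (b (3 * j + 1) = true ↔ I.1.Holds (vasg I.2.1.length (pt I.2.1.length x j)
        (fun i => z (3 * i + 2))))) := by
    intro x b z
    have e0 : (msen I).2.2.Holds (mix3 (msen I).1 (msen I).2.1 x (fun i => bre (b i)) z) ↔
      ((if I.2.2 = [] then Fm.lt Tm.zero Tm.zero else Fm.le Tm.zero Tm.zero).Holds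
        (mix3 (msen I).1 (msen I).2.1 x (fun i => bre (b i)) z) ∧
      (andL ((List.range I.2.2.length).map fun j =>
        Fm.or (Fm.and (is1 (3 * j + 1)) (sbF (mvar I.2.1.length j) I.1))
          (Fm.and (Fm.not (is1 (3 * j + 1))) (Fm.not (sbF (mvar I.2.1.length j) I.1))))).Holds
        (mix3 (msen I).1 (msen I).2.1 x (fun i => bre (b i)) z)) := Iff.rfl
    rw [e0]
    refine and_congr ?_ ?_
    · by_cases hk : I.2.2 = []
      · rw [if_pos hk]
        simp [Fm.Holds, hk]
      · rw [if_neg hk]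
        have : 1 ≤ I.2.2.length := List.length_pos_iff.mpr hk
        simp [Fm.Holds, this]
    · rw [holds_andL]
      constructor
      · intro h j hj
        have hh := h _ (List.mem_map.mpr ⟨j, List.mem_range.mpr hj, rfl⟩)
        simp only [Fm.Holds, is1, Tm.eval, holds_sbF] at hh
        have e1 := mix_u I.2.1.length I.2.2.length x (fun i => bre (b i)) z j hj
        have e2 := mix_eq I.2.1.length I.2.2.length x (fun i => bre (b i)) z j hj
        change mix3 (msen I).1 (msen I).2.1 x (fun i => bre (b i)) z (3 * j + 1) = _ at e1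
        change (fun i => mix3 (msen I).1 (msen I).2.1 x (fun i => bre (b i)) z
          (mvar I.2.1.length j i)) = _ at e2
        rw [e1, e2, bre_eq_one] at hh
        tauto
      · intro h φ hφ
        obtain ⟨j, hj, rfl⟩ := List.mem_map.mp hφ
        have hj := List.mem_range.mp hj
        simp only [Fm.Holds, is1, Tm.eval, holds_sbF]
        have e1 := mix_u I.2.1.length I.2.2.length x (fun i => bre (b i)) z j hj
        have e2 := mix_eq I.2.1.length I.2.2.length x (fun i => bre (b i)) z j hj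
        change mix3 (msen I).1 (msen I).2.1 x (fun i => bre (b i)) z (3 * j + 1) = _ at e1
        change (fun i => mix3 (msen I).1 (msen I).2.1 x (fun i => bre (b i)) z
          (mvar I.2.1.length j i)) = _ at e2
        rw [e1, e2, bre_eq_one]
        have := h j hj
        tauto
  unfold EBE
  simp only [key]
  constructor
  · rintro ⟨x, hx⟩
    obtain ⟨z, hz⟩ := hx (fun _ => true)
    refine ⟨hz.1, x, fun b => ?_⟩
    obtain ⟨z, hz⟩ := hx b
    exact ⟨z, hz.2⟩
  · rintro ⟨h1, x, hx⟩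
    refine ⟨x, fun b => ?_⟩
    obtain ⟨z, hz⟩ := hx b
    exact ⟨z, h1, hz⟩

theorem t_MC : S_MC := by
  classical
  intro I
  rw [ebe_iff]
  unfold VCdim
  refine and_congr_right fun hk => ?_
  generalize hn : I.2.1.length = n
  generalize hkk : I.2.2.length = k
  generalize I.1 = φ
  constructor
  · rintro ⟨P, hP, hS⟩
    let e : Fin k ≃ P := (P.equivFinOfCardEq hP).symm
    let x : ℕ → ℝ := fun t => if h : t / 3 / n < k ∧ t / 3 % n < n then
      (e ⟨t / 3 / n, h.1⟩ : Fin n → ℝ) ⟨t / 3 % n, h.2⟩ else 0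
    have hx : ∀ (j : ℕ) (hj : j < k), pt n x j = (e ⟨j, hj⟩ : Fin n → ℝ) := by
      intro j hj
      funext i
      have hn0 : 0 < n := i.pos
      have a1 : 3 * (j * n + (i : ℕ)) / 3 / n = j := by
        rw [Nat.mul_div_cancel_left _ (by norm_num : 0 < 3), mul_comm j n,
          Nat.mul_add_div hn0, Nat.div_eq_of_lt i.2, add_zero]
      have a2 : 3 * (j * n + (i : ℕ)) / 3 % n = i := by
        rw [Nat.mul_div_cancel_left _ (by norm_num : 0 < 3), mul_comm j n,
          Nat.mul_add_mod, Nat.mod_eq_of_lt i.2]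
      have a3 : 3 * (j * n + (i : ℕ)) / 3 / n < k ∧ 3 * (j * n + (i : ℕ)) / 3 % n < n := by
        rw [a1, a2]
        exact ⟨hj, i.2⟩
      change (if h : 3 * (j * n + (i : ℕ)) / 3 / n < k ∧ 3 * (j * n + (i : ℕ)) / 3 % n < n then
        (e ⟨3 * (j * n + (i : ℕ)) / 3 / n, h.1⟩ : Fin n → ℝ)
          ⟨3 * (j * n + (i : ℕ)) / 3 % n, h.2⟩ else 0) = _
      rw [dif_pos a3]
      have gen : ∀ (a c : ℕ) (ha : a < k) (hc : c < n), a = j → c = (i : ℕ) →
          (e ⟨a, ha⟩ : Fin n → ℝ) ⟨c, hc⟩ = (e ⟨j, hj⟩ : Fin n → ℝ) i := by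
        intro a c ha hc h1 h2
        subst h1
        subst h2
        rfl
      exact gen _ _ _ _ a1 a2
    refine ⟨x, fun b => ?_⟩
    obtain ⟨S, ⟨y, rfl⟩, hSP⟩ := hS {p | p ∈ P ∧ ∃ j : Fin k, (e j : Fin n → ℝ) = p ∧
      b (3 * (j : ℕ) + 1) = true} (fun p hp => hp.1)
    refine ⟨fun t => y (t / 3), fun j hj => ?_⟩
    have ey : (fun i : ℕ => (fun t => y (t / 3)) (3 * i + 2)) = y := by
      funext i
      change y ((3 * i + 2) / 3) = y i
      congr 1
      omega
    rw [ey, hx j hj]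
    have hmem : (e ⟨j, hj⟩ : Fin n → ℝ) ∈ P := (e ⟨j, hj⟩).2
    constructor
    · intro hb
      have : (e ⟨j, hj⟩ : Fin n → ℝ) ∈ {x | φ.Holds (vasg n x y)} ∩ (P : Set (Fin n → ℝ)) := by
        rw [hSP]
        exact ⟨hmem, ⟨j, hj⟩, rfl, hb⟩
      exact this.1
    · intro hb
      have : (e ⟨j, hj⟩ : Fin n → ℝ) ∈ {p | p ∈ P ∧ ∃ j : Fin k, (e j : Fin n → ℝ) = p ∧
          b (3 * (j : ℕ) + 1) = true} := by
        rw [← hSP]
        exact ⟨hb, hmem⟩
      obtain ⟨-, j', hj', hb'⟩ := this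
      have : j' = ⟨j, hj⟩ := e.injective (Subtype.ext hj')
      rw [this] at hb'
      exact hb'
  · rintro ⟨x, hx⟩
    have hinj : Function.Injective (fun j : Fin k => pt n x j) := by
      intro j j' hjj
      by_contra hne
      obtain ⟨z, hz⟩ := hx (fun t => decide (t = 3 * (j : ℕ) + 1))
      have h1 := (hz j j.2).mp (by simp)
      have h2 := hz j' j'.2
      have hjj' : pt n x j = pt n x j' := hjj
      rw [← hjj'] at h2
      have h3 := h2.mpr h1
      simp only [decide_eq_true_eq] at h3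
      exact hne (Fin.ext (by omega))
    refine ⟨Finset.univ.image (fun j : Fin k => pt n x j), ?_, ?_⟩
    · rw [Finset.card_image_of_injective _ hinj, Finset.card_univ, Fintype.card_fin]
    · intro P' hP'
      obtain ⟨z, hz⟩ := hx (fun t => decide (pt n x (t / 3) ∈ P'))
      refine ⟨_, ⟨fun i => z (3 * i + 2), rfl⟩, ?_⟩
      have hz' : ∀ j : Fin k, (pt n x j ∈ P' ↔
          φ.Holds (vasg n (pt n x j) (fun i => z (3 * i + 2)))) := by
        intro j
        have := hz j j.2
        have e3 : (3 * (j : ℕ) + 1) / 3 = j := by omega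
        rw [← this]
        simp only [decide_eq_true_eq, e3]
      ext p
      constructor
      · rintro ⟨h1, h2⟩
        obtain ⟨j, -, rfl⟩ := Finset.mem_image.mp (Finset.mem_coe.mp h2)
        exact (hz' j).mpr h1
      · intro hp
        have h2 := hP' hp
        obtain ⟨j, -, rfl⟩ := Finset.mem_image.mp (Finset.mem_coe.mp h2)
        exact ⟨(hz' j).mp hp, h2⟩

end Pool.Agent.R777.VCMC
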